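import Mathlib

set_option autoImplicit false

namespace Pool.Agent.H.MP_c4ee57_al

open Polynomial
open scoped PowerSeries

theorem sysE {F E : Type} [Field F] [Field E] [Algebra F E] {ι : Type} [Fintype ι] (A : ι → E)
    (hE : IntermediateField.adjoin F (Set.range A) = ⊤) (P : Set E)
    (hP : P ⊆ Set.range (algebraMap F E)) (ζ : E) (hζ : ζ ∈ P)
    (h1 : ∀ b ∈ Subring.closure (P ∪ Set.range A), 1 + ζ * b ≠ 0)
    (h2 : ∀ i, ∃ p ∈ P, ∃ b ∈ Subring.closure (P ∪ Set.range A), A i = p + ζ * b) :
    ∀ i, IsAlgebraic F (A i) := by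
  classical
  set B := Subring.closure (P ∪ Set.range A) with hB
  set D := KaehlerDifferential.D F E with hD
  set N : Submodule B (KaehlerDifferential F E) := Submodule.span B (Set.range fun j => D (A j))
    with hN
  have hDP : ∀ p ∈ P, D p = 0 := by
    intro p hp
    obtain ⟨c, rfl⟩ := hP hp
    exact Derivation.map_algebraMap D c
  have hDB : ∀ b ∈ B, D b ∈ N := by
    intro b hb
    induction hb using Subring.closure_induction with
    | mem x hx =>
      rcases hx with hx | ⟨j, rfl⟩
      · rw [hDP x hx]; exact N.zero_mem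
      · exact Submodule.subset_span ⟨j, rfl⟩
    | zero => simp
    | one => simp
    | add x y _ _ hx hy => rw [map_add]; exact N.add_mem hx hy
    | neg x _ hx => rw [map_neg]; exact N.neg_mem hx
    | mul x y hx' hy' hx hy =>
      rw [Derivation.leibniz]
      exact N.add_mem (N.smul_mem ⟨x, hx'⟩ hy) (N.smul_mem ⟨y, hy'⟩ hx)
  have hζB : ζ ∈ B := Subring.subset_closure (Or.inl hζ)
  have hle : N ≤ (Ideal.span {(⟨ζ, hζB⟩ : B)}) • N := by
    rw [hN, Submodule.span_le]
    rintro _ ⟨j, rfl⟩
    obtain ⟨p, hp, b, hb, e⟩ := h2 j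
    have : D (A j) = (⟨ζ, hζB⟩ : B) • D b := by
      rw [e, map_add, hDP p hp, zero_add, Derivation.leibniz, hDP ζ hζ, smul_zero, add_zero]
      rfl
    simp only [SetLike.mem_coe]
    rw [this]
    exact Submodule.smul_mem_smul (Ideal.subset_span rfl) (hDB b hb)
  obtain ⟨r, hr, hrN⟩ := Submodule.exists_sub_one_mem_and_smul_eq_zero_of_fg_of_le_smul _ N
    (Submodule.fg_span (Set.finite_range _)) hle
  obtain ⟨c, hc⟩ := Ideal.mem_span_singleton'.mp hr
  have hr0 : (r : E) ≠ 0 := by
    have h := congrArg (fun x : B => (x : E)) hc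
    simp only [Subring.coe_mul, AddSubgroupClass.coe_sub, OneMemClass.coe_one] at h
    have h' := h1 c c.2
    intro h0
    apply h'
    rw [h0] at h
    linear_combination h
  have hDA : ∀ j, D (A j) = 0 := by
    intro j
    have := hrN (D (A j)) (Submodule.subset_span ⟨j, rfl⟩)
    have h2' : (r : E) • D (A j) = 0 := this
    exact (smul_eq_zero.mp h2').resolve_left hr0
  have hall : ∀ x : E, D x = 0 := by
    intro x
    have hx : x ∈ IntermediateField.adjoin F (Set.range A) := by rw [hE]; trivial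
    induction hx using IntermediateField.adjoin_induction with
    | mem x hx => obtain ⟨j, rfl⟩ := hx; exact hDA j
    | algebraMap c => exact Derivation.map_algebraMap D c
    | add x y _ _ hx hy => rw [map_add, hx, hy, add_zero]
    | inv x _ hx => rw [Derivation.leibniz_inv, hx, smul_zero]
    | mul x y _ _ hx hy => rw [Derivation.leibniz, hx, hy, smul_zero, smul_zero, add_zero]
  have hsub : Subsingleton (KaehlerDifferential F E) := by
    have h := KaehlerDifferential.span_range_derivation F E
    have : Submodule.span E (Set.range (KaehlerDifferential.D F E)) = ⊥ := by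
      rw [Submodule.span_eq_bot]
      rintro _ ⟨x, rfl⟩
      exact hall x
    rw [this] at h
    exact (Submodule.subsingleton_iff E).mp (subsingleton_of_bot_eq_top h)
  haveI : Algebra.FormallyUnramified F E := ⟨hsub⟩
  haveI : Algebra.EssFiniteType F E := by
    rw [← IntermediateField.fg_top_iff, ← hE]
    exact IntermediateField.fg_adjoin_of_finite (Set.finite_range A)
  haveI := Algebra.FormallyUnramified.isSeparable F E
  intro i
  exact Algebra.IsAlgebraic.isAlgebraic (A i)

theorem sysO {R O : Type} [CommRing R] [IsDomain R] [CommRing O] [IsDomain O] [Algebra R O]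
    [FaithfulSMul R O] {ι : Type} [Fintype ι] (A : ι → O) (ζ : O) (hζ : IsAlgebraic R ζ)
    (h1 : ∀ b : O, 1 + ζ * b ≠ 0)
    (h2 : ∀ i, ∃ p, IsAlgebraic R p ∧
      ∃ b ∈ Subring.closure ({x : O | IsAlgebraic R x} ∪ Set.range A), A i = p + ζ * b) :
    ∀ i, IsAlgebraic R (A i) := by
  classical
  let Ω := FractionRing O
  let k := FractionRing R
  letI : Algebra k Ω := FractionRing.liftAlgebra R Ω
  haveI : IsScalarTower R k Ω := FractionRing.isScalarTower_liftAlgebra R Ω
  let F : IntermediateField k Ω := algebraicClosure k Ω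
  let φ : O →+* Ω := algebraMap O Ω
  have hφ : Function.Injective φ := IsFractionRing.injective O Ω
  have halg : ∀ x : O, IsAlgebraic R x ↔ IsAlgebraic k (φ x) := by
    intro x
    rw [← IsFractionRing.isAlgebraic_iff R k Ω]
    exact (isAlgebraic_algebraMap_iff hφ).symm
  let E : IntermediateField F Ω := IntermediateField.adjoin F (Set.range fun i => φ (A i))
  let A' : ι → E := fun i => ⟨φ (A i), IntermediateField.subset_adjoin _ _ ⟨i, rfl⟩⟩
  have hmem : ∀ x : O, IsAlgebraic R x → φ x ∈ E := by
    intro x hx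
    have : φ x ∈ F := mem_algebraicClosure_iff.mpr ((halg x).mp hx)
    exact E.algebraMap_mem ⟨φ x, this⟩
  let P : Set E := {y | ∃ x : O, IsAlgebraic R x ∧ φ x = y}
  have hE : IntermediateField.adjoin F (Set.range A') = ⊤ := by
    apply IntermediateField.lift_injective
    rw [IntermediateField.lift_adjoin, IntermediateField.lift_top, ← Set.range_comp]
    rfl
  have key := sysE (F := F) (E := E) A' hE P ?_ ⟨φ ζ, hmem ζ hζ⟩ ⟨ζ, hζ, rfl⟩ ?_ ?_
  · intro i
    rw [halg]
    have h3 : IsAlgebraic F (φ (A i)) := (key i).algebraMap (A := Ω)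
    exact h3.restrictScalars k
  · rintro y ⟨x, hx, e⟩
    exact ⟨⟨φ x, mem_algebraicClosure_iff.mpr ((halg x).mp hx)⟩, Subtype.ext e⟩
  · intro b hb
    have : ∃ o : O, φ o = b := by
      induction hb using Subring.closure_induction with
      | mem x hx =>
        rcases hx with ⟨o, _, e⟩ | ⟨j, rfl⟩
        · exact ⟨o, e⟩
        · exact ⟨A j, rfl⟩
      | zero => exact ⟨0, by simp⟩
      | one => exact ⟨1, by simp⟩
      | add x y _ _ hx hy =>
        obtain ⟨a, ha⟩ := hx; obtain ⟨b, hb⟩ := hy
        exact ⟨a + b, by simp [ha, hb]⟩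
      | neg x _ hx => obtain ⟨a, ha⟩ := hx; exact ⟨-a, by simp [ha]⟩
      | mul x y _ _ hx hy =>
        obtain ⟨a, ha⟩ := hx; obtain ⟨b, hb⟩ := hy
        exact ⟨a * b, by simp [ha, hb]⟩
    obtain ⟨o, ho⟩ := this
    intro h0
    have h4 := congrArg (fun x : E => (x : Ω)) h0
    simp only [AddMemClass.coe_add, OneMemClass.coe_one, MulMemClass.coe_mul,
      ZeroMemClass.coe_zero] at h4
    apply h1 o
    apply hφ
    rw [map_add, map_mul, map_one, map_zero, ho]
    exact h4
  · intro i
    obtain ⟨p, hp, b, hb, e⟩ := h2 i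
    have : ∃ b' ∈ Subring.closure (P ∪ Set.range A'), φ b = b' := by
      clear e
      induction hb using Subring.closure_induction with
      | mem x hx =>
        rcases hx with hx | ⟨j, rfl⟩
        · exact ⟨⟨φ x, hmem x hx⟩, Subring.subset_closure (Or.inl ⟨x, hx, rfl⟩), rfl⟩
        · exact ⟨A' j, Subring.subset_closure (Or.inr ⟨j, rfl⟩), rfl⟩
      | zero => exact ⟨0, Subring.zero_mem _, by simp⟩
      | one => exact ⟨1, Subring.one_mem _, by simp⟩
      | add x y _ _ hx hy =>
        obtain ⟨a, ha, ea⟩ := hx; obtain ⟨b, hb, eb⟩ := hy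
        exact ⟨a + b, Subring.add_mem _ ha hb, by simp [ea, eb]⟩
      | neg x _ hx =>
        obtain ⟨a, ha, ea⟩ := hx
        exact ⟨-a, Subring.neg_mem _ ha, by simp [ea]⟩
      | mul x y _ _ hx hy =>
        obtain ⟨a, ha, ea⟩ := hx; obtain ⟨b, hb, eb⟩ := hy
        exact ⟨a * b, Subring.mul_mem _ ha hb, by simp [ea, eb]⟩
    obtain ⟨b', hb', eb⟩ := this
    refine ⟨⟨φ p, hmem p hp⟩, ⟨p, hp, rfl⟩, b', hb', Subtype.ext ?_⟩
    simp only [AddMemClass.coe_add, MulMemClass.coe_mul, A']
    rw [e, map_add, map_mul, eb]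

end Pool.Agent.H.MP_c4ee57_al
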