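import Mathlib

set_option autoImplicit false

namespace Pool.Agent.H.MP_c4ee57_al

open Polynomial
open scoped PowerSeries

noncomputable def th (f : ℚ⟦X⟧) : ℚ⟦X⟧ := PowerSeries.X * PowerSeries.derivative ℚ f

theorem coeff_th (f : ℚ⟦X⟧) (n : ℕ) :
    PowerSeries.coeff n (th f) = n * PowerSeries.coeff n f := by
  cases n with
  | zero => simp [th]
  | succ n =>
    rw [th, PowerSeries.coeff_succ_X_mul, PowerSeries.coeff_derivative]
    push_cast; ring

theorem coeff_th_iter (f : ℚ⟦X⟧) (i n : ℕ) :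
    PowerSeries.coeff n (th^[i] f) = (n : ℚ) ^ i * PowerSeries.coeff n f := by
  induction i with
  | zero => simp
  | succ i ih => rw [Function.iterate_succ_apply', coeff_th, ih]; ring

theorem th_mul (f g : ℚ⟦X⟧) : th (f * g) = th f * g + f * th g := by
  simp only [th, Derivation.leibniz, smul_eq_mul]; ring

theorem th_add (f g : ℚ⟦X⟧) : th (f + g) = th f + th g := by
  simp only [th, map_add]; ring

theorem th_pow (f : ℚ⟦X⟧) (n : ℕ) : th (f ^ (n + 1)) = (n + 1 : ℚ⟦X⟧) * f ^ n * th f := by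
  induction n with
  | zero => simp
  | succ n ih => rw [pow_succ, th_mul, ih]; push_cast; ring

theorem alg_eq (p : ℚ[X]) : algebraMap ℚ[X] ℚ⟦X⟧ p = (p : ℚ⟦X⟧) := by
  rw [PowerSeries.algebraMap_apply']; simp

theorem th_alg (p : ℚ[X]) :
    th (algebraMap ℚ[X] ℚ⟦X⟧ p) = algebraMap ℚ[X] ℚ⟦X⟧ (X * derivative p) := by
  rw [alg_eq, alg_eq, th, PowerSeries.derivative_coe]; simp

theorem th_aeval (g : ℚ⟦X⟧) (Q : ℚ[X][X]) :
    th (aeval g Q) - aeval g (derivative Q) * th g ∈ Algebra.adjoin ℚ[X] {g} := by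
  have hg : g ∈ Algebra.adjoin ℚ[X] {g} := Algebra.self_mem_adjoin_singleton _ _
  induction Q using Polynomial.induction_on with
  | C a =>
    simp only [aeval_C, derivative_C, map_zero, zero_mul, sub_zero, th_alg]
    exact Subalgebra.algebraMap_mem _ _
  | add p q hp hq =>
    have : th (aeval g (p + q)) - aeval g (derivative (p + q)) * th g =
        (th (aeval g p) - aeval g (derivative p) * th g) +
          (th (aeval g q) - aeval g (derivative q) * th g) := by
      simp only [map_add, th_add]; ring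
    rw [this]; exact Subalgebra.add_mem _ hp hq
  | monomial n a _ =>
    have : th (aeval g (C a * X ^ (n + 1))) - aeval g (derivative (C a * X ^ (n + 1))) * th g =
        algebraMap ℚ[X] ℚ⟦X⟧ (X * derivative a) * g ^ (n + 1) := by
      rw [derivative_C_mul, derivative_X_pow_succ]
      simp only [map_mul, aeval_C, map_pow, aeval_X, th_mul, th_pow, th_alg, map_add, map_natCast,
        map_one]
      ring
    rw [this]
    exact Subalgebra.mul_mem _ (Subalgebra.algebraMap_mem _ _) (Subalgebra.pow_mem _ hg _)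

theorem ode (f : ℚ⟦X⟧) (hf : IsAlgebraic ℚ[X] f) :
    ∃ (r : ℕ) (p : Fin r → ℚ[X]), (∃ i, p i ≠ 0) ∧
      ∑ i : Fin r, (p i : ℚ⟦X⟧) * th^[i] f = 0 := by
  classical
  obtain ⟨y, hy, hint⟩ := hf.exists_integral_multiple
  set g := y • f with hgdef
  set B := Algebra.adjoin ℚ[X] {g} with hB
  haveI : Module.Finite ℚ[X] B := Module.Finite.iff_fg.mpr hint.fg_adjoin_singleton
  have hex : ∃ n, ∃ P : ℚ[X][X], P ≠ 0 ∧ aeval g P = 0 ∧ P.natDegree = n := by
    obtain ⟨P, hP, h0⟩ := hint.isAlgebraic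
    exact ⟨_, P, hP, h0, rfl⟩
  obtain ⟨P, hP, hP0, hPn⟩ := Nat.find_spec hex
  have hinj : Function.Injective (algebraMap ℚ[X] ℚ⟦X⟧) := by
    intro a b h
    rw [alg_eq, alg_eq] at h
    exact Polynomial.coe_injective ℚ h
  have hdeg : P.natDegree ≠ 0 := by
    intro h
    rw [eq_C_of_natDegree_eq_zero h, aeval_C] at hP0
    apply hP
    rw [eq_C_of_natDegree_eq_zero h, hinj (hP0.trans (map_zero _).symm), map_zero]
  set δ := aeval g (derivative P) with hδ
  have hδ0 : δ ≠ 0 := by
    intro h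
    have h1 : derivative P ≠ 0 := fun h' => hdeg (Polynomial.derivative_eq_zero.mp h')
    have h2 := Nat.find_min' hex ⟨derivative P, h1, h, rfl⟩
    have h3 := natDegree_derivative_lt hdeg
    omega
  have hrange : ∀ Q : ℚ[X][X], aeval g Q ∈ B := fun Q => Polynomial.aeval_mem_adjoin_singleton _ _
  have hδB : δ ∈ B := hrange _
  have hδg : δ * th g ∈ B := by
    have := th_aeval g P
    rw [hP0] at this
    have e : th 0 = 0 := by simp [th]
    rw [e, zero_sub] at this
    simpa using B.neg_mem this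
  have hL2 : ∀ b ∈ B, δ * th b ∈ B := by
    intro b hb
    rw [hB, Algebra.adjoin_singleton_eq_range_aeval] at hb
    obtain ⟨Q, rfl⟩ := hb
    have h1 := th_aeval g Q
    have : δ * th (aeval g Q) = δ * (th (aeval g Q) - aeval g (derivative Q) * th g) +
        aeval g (derivative Q) * (δ * th g) := by ring
    show δ * th (aeval g Q) ∈ B
    rw [this]
    exact B.add_mem (B.mul_mem hδB h1) (B.mul_mem (hrange _) hδg)
  set c := algebraMap ℚ[X] ℚ⟦X⟧ y * δ with hc
  have hcB : c ∈ B := B.mul_mem (B.algebraMap_mem _) hδB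
  have hc0 : c ≠ 0 := mul_ne_zero (fun h => hy (hinj (h.trans (map_zero _).symm))) hδ0
  have hL3 : ∀ b ∈ B, c * th b ∈ B := by
    intro b hb
    rw [hc, mul_assoc]
    exact B.mul_mem (B.algebraMap_mem _) (hL2 b hb)
  have hS : ∀ i : ℕ, ∃ m : ℕ, c ^ m * th^[i] f ∈ B := by
    intro i
    induction i with
    | zero =>
      refine ⟨1, ?_⟩
      have : c ^ 1 * th^[0] f = δ * g := by
        rw [hgdef, Algebra.smul_def, hc]; simp; ring
      rw [this]
      exact B.mul_mem hδB (Algebra.self_mem_adjoin_singleton _ _)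
    | succ i ih =>
      obtain ⟨m, hm⟩ := ih
      refine ⟨2 * m + 1, ?_⟩
      rw [Function.iterate_succ_apply']
      set h := th^[i] f
      have : c ^ (2 * m + 1) * th h =
          c ^ m * (c * th (c ^ m * h)) - (c * th (c ^ m)) * (c ^ m * h) := by
        rw [th_mul]; ring
      rw [this]
      exact B.sub_mem (B.mul_mem (B.pow_mem hcB _) (hL3 _ hm))
        (B.mul_mem (hL3 _ (B.pow_mem hcB _)) hm)
  choose m hm using hS
  set r := Module.finrank ℚ[X] B + 1 with hr
  set M := ∑ i ∈ Finset.range r, m i with hM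
  have hmM : ∀ i : Fin r, c ^ M * th^[i] f ∈ B := by
    intro i
    have hle : m i ≤ M := Finset.single_le_sum (f := m) (fun _ _ => Nat.zero_le _)
      (Finset.mem_range.mpr i.2)
    obtain ⟨d, hd⟩ := Nat.exists_eq_add_of_le hle
    rw [hd, pow_add, mul_comm (c ^ m i), mul_assoc]
    exact B.mul_mem (B.pow_mem hcB _) (hm i)
  let v : Fin r → B := fun i => ⟨c ^ M * th^[i] f, hmM i⟩
  have hnl : ¬ LinearIndependent ℚ[X] v := by
    intro h
    have := h.fintype_card_le_finrank
    simp only [Fintype.card_fin] at this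
    omega
  obtain ⟨p, hp, hp0⟩ := Fintype.not_linearIndependent_iff.mp hnl
  refine ⟨r, p, hp0, ?_⟩
  have h1 := congrArg (fun x : B => (x : ℚ⟦X⟧)) hp
  simp only [AddSubmonoidClass.coe_finsetSum, SetLike.val_smul, ZeroMemClass.coe_zero, v] at h1
  simp only [Algebra.smul_def, alg_eq] at h1
  have h2 : c ^ M * ∑ i : Fin r, (p i : ℚ⟦X⟧) * th^[i] f = 0 := by
    rw [Finset.mul_sum, ← h1]
    exact Finset.sum_congr rfl fun i _ => by ring
  exact (mul_eq_zero.mp h2).resolve_left (pow_ne_zero _ hc0)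

theorem gap_not_alg (f : ℚ⟦X⟧)
    (ha : ∀ w N : ℕ, ∃ M, N ≤ M ∧ ∀ i < w, PowerSeries.coeff (M + i) f = 0)
    (hb : ∀ N : ℕ, ∃ M, N ≤ M ∧ PowerSeries.coeff M f ≠ 0) : ¬ IsAlgebraic ℚ[X] f := by
  classical
  intro hf
  obtain ⟨r, p, ⟨i0, hi0⟩, hp⟩ := ode f hf
  let lam : ℕ → ℚ[X] := fun a => ∑ i : Fin r, monomial (i : ℕ) ((p i).coeff a)
  have hrec : ∀ n, ∑ x ∈ Finset.HasAntidiagonal.antidiagonal n,
      (lam x.1).eval (x.2 : ℚ) * PowerSeries.coeff x.2 f = 0 := by
    intro n
    have := congrArg (PowerSeries.coeff n) hp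
    simp only [map_sum, PowerSeries.coeff_mul, Polynomial.coeff_coe, coeff_th_iter,
      map_zero] at this
    rw [Finset.sum_comm] at this
    rw [← this]
    refine Finset.sum_congr rfl fun x _ => ?_
    simp only [lam, eval_finsetSum, eval_monomial, Finset.sum_mul]
    exact Finset.sum_congr rfl fun i _ => by ring
  have hex : ∃ a, lam a ≠ 0 := by
    obtain ⟨a, ha⟩ : ∃ a, (p i0).coeff a ≠ 0 := ⟨_, leadingCoeff_ne_zero.mpr hi0⟩
    refine ⟨a, fun h => ha ?_⟩
    have := congrArg (fun q : ℚ[X] => q.coeff i0) h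
    simp only [lam, finsetSum_coeff, coeff_monomial, coeff_zero] at this
    rw [Finset.sum_eq_single i0] at this
    · simpa using this
    · intro b _ hb
      rw [if_neg (fun h => hb (Fin.ext h))]
    · simp
  set a0 := Nat.find hex with ha0
  have hl0 : lam a0 ≠ 0 := Nat.find_spec hex
  set W := ∑ i : Fin r, (p i).natDegree with hW
  have hlW : ∀ a, W < a → lam a = 0 := by
    intro a ha
    refine Finset.sum_eq_zero fun i _ => ?_
    have : (p i).natDegree ≤ W := Finset.single_le_sum (f := fun i => (p i).natDegree)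
      (fun _ _ => Nat.zero_le _) (Finset.mem_univ i)
    rw [coeff_eq_zero_of_natDegree_lt (by omega), monomial_zero_right]
  obtain ⟨N0, hN0⟩ : ∃ N0 : ℕ, ∀ b : ℕ, N0 ≤ b → (lam a0).eval (b : ℚ) ≠ 0 := by
    have hfin : {b : ℕ | (lam a0).eval (b : ℚ) = 0}.Finite := by
      have h1 := Polynomial.finite_setOf_isRoot hl0
      exact h1.preimage (f := fun b : ℕ => (b : ℚ)) (Nat.cast_injective.injOn)
    obtain ⟨N0, hN0⟩ := hfin.bddAbove
    refine ⟨N0 + 1, fun b hb h => ?_⟩
    have := hN0 h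
    omega
  obtain ⟨M, hM, hgap⟩ := ha W N0
  have hex2 : ∃ N, M + W ≤ N ∧ PowerSeries.coeff N f ≠ 0 := hb (M + W)
  set N := Nat.find hex2 with hN
  obtain ⟨hN1, hN2⟩ : M + W ≤ N ∧ PowerSeries.coeff N f ≠ 0 := Nat.find_spec hex2
  have hz : ∀ b, M ≤ b → b < N → PowerSeries.coeff b f = 0 := by
    intro b hb1 hb2
    by_cases h : M + W ≤ b
    · by_contra h'
      exact Nat.find_min hex2 hb2 ⟨h, h'⟩
    · have := hgap (b - M) (by omega)
      rwa [show M + (b - M) = b by omega] at this
  have h := hrec (a0 + N)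
  rw [Finset.sum_eq_single (a0, N)] at h
  · exact mul_ne_zero (hN0 N (by omega)) hN2 h
  · rintro ⟨a, b⟩ hab hne
    rw [Finset.HasAntidiagonal.mem_antidiagonal] at hab
    simp only at hab ⊢
    by_cases h1 : a < a0
    · have : lam a = 0 := by
        by_contra h'
        exact Nat.find_min hex h1 h'
      rw [this]; simp
    by_cases h2 : W < a
    · rw [hlW a h2]; simp
    have h3 : a ≠ a0 := by
      rintro rfl
      apply hne
      congr 1
      omega
    rw [hz b (by omega) (by omega), mul_zero]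
  · intro h'
    exact (h' (Finset.HasAntidiagonal.mem_antidiagonal.mpr rfl)).elim

end Pool.Agent.H.MP_c4ee57_al
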