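import Pool.Agent.H.MP_c4ee57_al.B

set_option autoImplicit false

namespace Pool.Agent.H.MP_c4ee57_al

open Polynomial
open scoped PowerSeries

theorem ev_alg (F : (ℚ[X])⟦X⟧) (h : IsAlgebraic ℚ[X][X] F) :
    IsAlgebraic ℚ[X] (PowerSeries.map (Polynomial.constantCoeff : ℚ[X] →+* ℚ) F) := by
  obtain ⟨P, hP, h0⟩ := h
  induction hn : P.leadingCoeff.leadingCoeff.natDegree using Nat.strong_induction_on
    generalizing P with
  | _ n ih =>
  let e : ℚ[X][X] →+* ℚ[X] := Polynomial.mapRingHom (Polynomial.constantCoeff : ℚ[X] →+* ℚ)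
  let g : (ℚ[X])⟦X⟧ →+* ℚ⟦X⟧ := PowerSeries.map (Polynomial.constantCoeff : ℚ[X] →+* ℚ)
  have hc : (algebraMap ℚ[X] ℚ⟦X⟧).comp e = g.comp (algebraMap ℚ[X][X] (ℚ[X])⟦X⟧) := by
    refine RingHom.ext fun q => ?_
    ext m
    simp [e, g, PowerSeries.algebraMap_apply', Polynomial.coeff_coe]
  by_cases hm : P.map e = 0
  · have hd : (C (C X) : ℚ[X][X][X]) ∣ P := by
      rw [C_dvd_iff_dvd_coeff]
      intro i
      rw [C_dvd_iff_dvd_coeff]
      intro j
      rw [X_dvd_iff]
      have := congrArg (fun q : ℚ[X][X] => (q.coeff i).coeff j) hm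
      simpa [e] using this
    obtain ⟨P1, rfl⟩ := hd
    have hP1 : P1 ≠ 0 := right_ne_zero_of_mul hP
    refine ih _ ?_ P1 hP1 ?_ rfl
    · rw [← hn, leadingCoeff_mul, leadingCoeff_C, leadingCoeff_mul, leadingCoeff_C,
        natDegree_X_mul (leadingCoeff_ne_zero.mpr (leadingCoeff_ne_zero.mpr hP1))]
      omega
    · rw [map_mul, aeval_C] at h0
      refine (mul_eq_zero.mp h0).resolve_left ?_
      intro h
      have := congrArg (PowerSeries.coeff 0) h
      simp [PowerSeries.algebraMap_apply'] at this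
  · refine ⟨P.map e, hm, ?_⟩
    change aeval (g F) _ = 0
    rw [← map_aeval_eq_aeval_map hc, h0, map_zero]

noncomputable def co (j : ℕ) (F : (ℚ[X])⟦X⟧) : ℚ⟦X⟧ :=
  PowerSeries.mk fun n => (PowerSeries.coeff n F).coeff j

theorem co_alg (j : ℕ) : ∀ (F : (ℚ[X])⟦X⟧), IsAlgebraic ℚ[X][X] F → IsAlgebraic ℚ[X] (co j F) := by
  have h0 : ∀ (F : (ℚ[X])⟦X⟧), IsAlgebraic ℚ[X][X] F → IsAlgebraic ℚ[X] (co 0 F) := by
    intro F h
    have : co 0 F = PowerSeries.map (Polynomial.constantCoeff : ℚ[X] →+* ℚ) F := by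
      ext n; simp [co]
    rw [this]; exact ev_alg F h
  induction j with
  | zero => exact h0
  | succ j ih =>
    intro F h
    let F1 : (ℚ[X])⟦X⟧ := PowerSeries.mk fun n => divX (PowerSeries.coeff n F)
    have e1 : co (j + 1) F = co j F1 := by
      ext n; simp [co, F1, coeff_divX]
    rw [e1]
    apply ih
    have h1 : IsAlgebraic ℚ[X][X] (PowerSeries.map (Polynomial.C : ℚ →+* ℚ[X]) (co 0 F)) := by
      refine (h0 F h).ringHom_of_comp_eq (Polynomial.mapRingHom (Polynomial.C : ℚ →+* ℚ[X]))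
        (PowerSeries.map (Polynomial.C : ℚ →+* ℚ[X]))
        (Polynomial.map_injective _ Polynomial.C_injective) ?_
      refine RingHom.ext fun q => ?_
      ext m
      simp [PowerSeries.algebraMap_apply', Polynomial.coeff_coe]
    have h2 := h.sub h1
    have e2 : F - PowerSeries.map (Polynomial.C : ℚ →+* ℚ[X]) (co 0 F) =
        (C X : ℚ[X][X]) • F1 := by
      rw [Algebra.smul_def, PowerSeries.algebraMap_apply']
      refine PowerSeries.ext fun n => ?_
      simp only [map_sub, PowerSeries.coeff_map, co, PowerSeries.coeff_mk, Polynomial.coe_C,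
        PowerSeries.map_C, PowerSeries.coeff_C_mul, F1]
      have := X_mul_divX_add (PowerSeries.coeff n F)
      simp only [Algebra.algebraMap_self, RingHom.id_apply]
      linear_combination -this
    rw [e2] at h2
    exact h2.of_smul (mem_nonZeroDivisors_of_ne_zero (by simp))

noncomputable def psi (M : ℕ) : ℚ := ∑ d ∈ M.divisors, (-1 : ℚ) ^ (d / 2)

theorem psi_zero (p M : ℕ) (hp : p.Prime) (h4 : p % 4 = 3) (hM : M % 2 = 1) (hpM : ¬ p ∣ M) :
    psi (p * M) = 0 := by
  have hM0 : M ≠ 0 := by omega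
  have hdiv : (p * M).divisors = M.divisors ∪ M.divisors.image (fun d => p * d) := by
    ext d
    simp only [Nat.mem_divisors, Finset.mem_union, Finset.mem_image]
    constructor
    · rintro ⟨hd, _⟩
      by_cases h : p ∣ d
      · obtain ⟨e, rfl⟩ := h
        exact Or.inr ⟨e, ⟨Nat.dvd_of_mul_dvd_mul_left hp.pos hd, hM0⟩, rfl⟩
      · exact Or.inl ⟨((Nat.Prime.coprime_iff_not_dvd hp).mpr h).symm.dvd_of_dvd_mul_left hd, hM0⟩
    · rintro (⟨hd, _⟩ | ⟨e, ⟨he, _⟩, rfl⟩)
      · exact ⟨hd.mul_left p, mul_ne_zero hp.ne_zero hM0⟩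
      · exact ⟨Nat.mul_dvd_mul_left p he, mul_ne_zero hp.ne_zero hM0⟩
  rw [psi, hdiv, Finset.sum_union, Finset.sum_image, ← Finset.sum_add_distrib]
  · refine Finset.sum_eq_zero fun d hd => ?_
    have hd1 : d % 2 = 1 := by
      have := Nat.dvd_of_mem_divisors hd
      by_contra h
      have h2 : 2 ∣ d := by omega
      have := h2.trans this
      omega
    obtain ⟨a, rfl⟩ : ∃ a, d = 2 * a + 1 := ⟨d / 2, by omega⟩
    obtain ⟨c, rfl⟩ : ∃ c, p = 4 * c + 3 := ⟨p / 4, by omega⟩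
    have e1 : (2 * a + 1) / 2 = a := by omega
    have e2 : (4 * c + 3) * (2 * a + 1) / 2 = a + 1 + 2 * (2 * a * c + a + c) := by
      have : (4 * c + 3) * (2 * a + 1) = 2 * (a + 1 + 2 * (2 * a * c + a + c)) + 1 := by ring
      omega
    rw [e1, e2, pow_add, pow_mul, pow_succ]
    simp
  · intro a _ b _ h
    exact Nat.eq_of_mul_eq_mul_left hp.pos h
  · rw [Finset.disjoint_left]
    intro d hd hd'
    obtain ⟨e, _, rfl⟩ := Finset.mem_image.mp hd'
    exact hpM ((Dvd.intro e rfl).trans (Nat.dvd_of_mem_divisors hd))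

theorem psi_pos (k : ℕ) : psi (5 ^ k) ≠ 0 := by
  apply ne_of_gt
  refine Finset.sum_pos (fun d hd => ?_) ⟨1, by simp⟩
  obtain ⟨i, _, rfl⟩ := (Nat.dvd_prime_pow Nat.prime_five).mp (Nat.dvd_of_mem_divisors hd)
  have : 5 ^ i % 4 = 1 := by rw [Nat.pow_mod]; simp
  have h2 : Even (5 ^ i / 2) := ⟨5 ^ i / 4, by omega⟩
  rw [h2.neg_one_pow]; exact one_pos

theorem psi_gap (w : ℕ) : ∃ Q M : ℕ, 0 < Q ∧
    ∀ M', M' ≡ M [MOD Q] → ∀ i < w, psi (2 * (M' + i) + 1) = 0 := by
  induction w with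
  | zero => exact ⟨1, 0, one_pos, fun _ _ i hi => absurd hi (Nat.not_lt_zero i)⟩
  | succ w ih =>
    obtain ⟨Q, M, hQ, h⟩ := ih
    obtain ⟨p, hpQ, hp, hp4⟩ := Nat.forall_exists_prime_gt_and_modEq Q (q := 4) (a := 3)
      (by norm_num) (by norm_num)
    have hp4' : p % 4 = 3 := hp4
    have hco : Nat.Coprime Q (p * p) := by
      have : Nat.Coprime Q p :=
        ((Nat.Prime.coprime_iff_not_dvd hp).mpr (Nat.not_dvd_of_pos_of_lt hQ hpQ)).symm
      exact this.mul_right this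
    obtain ⟨c, hc⟩ : ∃ c, p = 2 * c + 1 := ⟨p / 2, by omega⟩
    obtain ⟨x, hx1, hx2⟩ := Nat.chineseRemainder hco M (c + w * (p * p - 1))
    have hpp : 0 < p * p := Nat.mul_pos hp.pos hp.pos
    refine ⟨Q * (p * p), x, Nat.mul_pos hQ hpp, fun M' hM' i hi => ?_⟩
    rcases Nat.lt_succ_iff_lt_or_eq.mp hi with hi | rfl
    · exact h M' ((hM'.of_mul_right _).trans hx1) i hi
    · have h1 : M' ≡ c + i * (p * p - 1) [MOD p * p] := (hM'.of_mul_left _).trans hx2
      have h2 : 2 * (M' + i) + 1 ≡ p [MOD p * p] := by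
        have h3 := ((h1.add_right i).mul_left 2).add_right 1
        refine h3.trans ?_
        have : 2 * (c + i * (p * p - 1) + i) + 1 = p + (p * p) * (2 * i) := by
          obtain ⟨s, hs⟩ : ∃ s, p * p = s + 1 := ⟨p * p - 1, by omega⟩
          rw [hs, Nat.add_sub_cancel]
          rw [hc]; ring
        rw [this]
        exact Nat.add_mul_mod_self_left p (p * p) (2 * i)
      have hlt : p < p * p := by nlinarith [hp.two_le]
      obtain ⟨t, ht⟩ : ∃ t, 2 * (M' + i) + 1 = p * (1 + p * t) := by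
        refine ⟨(2 * (M' + i) + 1) / (p * p), ?_⟩
        have h5 := Nat.mod_add_div (2 * (M' + i) + 1) (p * p)
        have h6 : (2 * (M' + i) + 1) % (p * p) = p := by
          rw [h2, Nat.mod_eq_of_lt hlt]
        rw [h6] at h5
        rw [mul_add p, mul_one, ← mul_assoc p p]
        exact h5.symm
      rw [ht]
      refine psi_zero p _ hp hp4' ?_ ?_
      · by_contra h7
        have h8 : 2 ∣ 1 + p * t := by omega
        have h9 := h8.mul_left p
        omega
      · intro h7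
        have := (Nat.dvd_add_left (Dvd.intro t rfl)).mp h7
        exact hp.one_lt.ne' (Nat.dvd_one.mp this)

theorem psi_not_alg : ¬ IsAlgebraic ℚ[X] (PowerSeries.mk fun n => psi (2 * n + 1) : ℚ⟦X⟧) := by
  apply gap_not_alg
  · intro w N
    obtain ⟨Q, M, hQ, h⟩ := psi_gap w
    refine ⟨M + Q * N, by nlinarith, fun i hi => ?_⟩
    rw [PowerSeries.coeff_mk]
    exact h _ (Nat.add_mul_mod_self_left M Q N) i hi
  · intro N
    have h1 : 5 ^ (N + 1) % 4 = 1 := by rw [Nat.pow_mod]; simp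
    have h2 : 2 * N + 1 ≤ 5 ^ (N + 1) := by
      induction N with
      | zero => norm_num
      | succ N ih =>
        have := ih (by rw [Nat.pow_mod]; simp)
        rw [pow_succ]; omega
    refine ⟨5 ^ (N + 1) / 2, by omega, ?_⟩
    rw [PowerSeries.coeff_mk, show 2 * (5 ^ (N + 1) / 2) + 1 = 5 ^ (N + 1) by omega]
    exact psi_pos _

end Pool.Agent.H.MP_c4ee57_al
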