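import Pool.Agent.H.MP_c4ee57_al.C

set_option autoImplicit false

namespace Pool.Agent.H.MP_c4ee57_al

open scoped PowerSeries Polynomial
open PowerSeries

theorem exists_sigma : ∃ (σ : ℚ⟦X⟧ →+* ℚ⟦X⟧) (Z : ℚ⟦X⟧), σ X = Z ∧ (1 + X ^ 2) * Z = X ∧ X ∣ Z ∧
    ∀ U : ℚ⟦X⟧, IsAlgebraic ℚ[X] U → IsAlgebraic ℚ[X] (σ U) := by
  let Z : ℚ⟦X⟧ := X * (1 + X ^ 2)⁻¹
  have hc : constantCoeff (1 + X ^ 2 : ℚ⟦X⟧) ≠ 0 := by simp
  have hZ : (1 + X ^ 2) * Z = X := by
    rw [mul_left_comm, PowerSeries.mul_inv_cancel _ hc, mul_one]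
  have hZ0 : constantCoeff Z = 0 := by simp [Z]
  have hs : HasSubst Z := HasSubst.of_constantCoeff_zero' hZ0
  let σ : ℚ⟦X⟧ →ₐ[ℚ] ℚ⟦X⟧ := substAlgHom hs
  have hσX : σ X = Z := substAlgHom_X hs
  have hσp : ∀ p : ℚ[X], σ (algebraMap ℚ[X] ℚ⟦X⟧ p) = Polynomial.aeval Z p := by
    intro p
    rw [alg_eq]
    exact substAlgHom_coe hs p
  have hZne : Z ≠ 0 := by
    intro h; rw [h, mul_zero] at hZ; exact X_ne_zero hZ.symm
  have hZalg : IsAlgebraic ℚ[X] Z := by
    have h1 : IsAlgebraic ℚ[X] ((1 + Polynomial.X ^ 2 : ℚ[X]) • Z) := by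
      rw [Algebra.smul_def, alg_eq]
      push_cast
      rw [hZ, ← Polynomial.coe_X, ← alg_eq]
      exact isAlgebraic_algebraMap _
    refine h1.of_smul (mem_nonZeroDivisors_of_ne_zero ?_)
    intro h
    have := congrArg (fun q : ℚ[X] => q.coeff 0) h
    simp at this
  have hp : ∀ p : ℚ[X], IsAlgebraic ℚ[X] (Polynomial.aeval Z p) := by
    intro p
    induction p using Polynomial.induction_on with
    | C a =>
      rw [Polynomial.aeval_C]
      have : algebraMap ℚ ℚ⟦X⟧ a = algebraMap ℚ[X] ℚ⟦X⟧ (Polynomial.C a) := by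
        rw [alg_eq]; simp [PowerSeries.algebraMap_apply]
      rw [this]; exact isAlgebraic_algebraMap _
    | add p q hp hq => rw [map_add]; exact hp.add hq
    | monomial n a h => rw [pow_succ, ← mul_assoc, map_mul, Polynomial.aeval_X]; exact h.mul hZalg
  have hne : ∀ p : ℚ[X], p ≠ 0 → Polynomial.aeval Z p ≠ 0 := by
    intro p hp0
    obtain ⟨q, hq, hq0⟩ := Polynomial.exists_eq_pow_rootMultiplicity_mul_and_not_dvd p hp0 0
    rw [hq, map_mul, map_pow]
    simp only [map_zero, sub_zero, Polynomial.aeval_X] at hq0 ⊢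
    refine mul_ne_zero (pow_ne_zero _ hZne) fun h => hq0 ?_
    rw [Polynomial.X_dvd_iff]
    have h1 : ∀ q : ℚ[X], constantCoeff (Polynomial.aeval Z q) = q.coeff 0 := by
      intro q
      induction q using Polynomial.induction_on with
      | C a => simp [PowerSeries.algebraMap_apply]
      | add p q hp hq => simp [hp, hq]
      | monomial n a h => simp [hZ0]
    rw [← h1, h, map_zero]
  refine ⟨σ.toRingHom, Z, hσX, hZ, Dvd.intro _ rfl, fun U hU => ?_⟩
  let S := Subalgebra.algebraicClosure ℚ[X] ℚ⟦X⟧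
  let f : ℚ[X] →+* S := ((Polynomial.aeval Z).toRingHom : ℚ[X] →+* ℚ⟦X⟧).codRestrict S hp
  have hf : Function.Injective f := by
    rw [injective_iff_map_eq_zero]
    intro p h
    by_contra h0
    exact hne p h0 (congrArg Subtype.val h)
  have h2 : IsAlgebraic S (σ.toRingHom U) :=
    hU.ringHom_of_comp_eq f σ.toRingHom hf (RingHom.ext fun p => (hσp p).symm)
  haveI : Algebra.IsAlgebraic ℚ[X] S := ⟨fun x =>
    (isAlgebraic_algebraMap_iff (R := ℚ[X]) (S := S) (A := ℚ⟦X⟧) Subtype.val_injective).mp x.2⟩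
  exact h2.restrictScalars ℚ[X]

def W : ℕ → Finset (List Bool)
  | 0 => {[]}
  | n + 1 => (W n).image (fun w => true :: w) ∪ (W n).image (fun w => false :: w)

theorem mem_W (n : ℕ) (w : List Bool) : w ∈ W n ↔ w.length = n := by
  induction n generalizing w with
  | zero => simp [W]
  | succ n ih =>
    simp only [W, Finset.mem_union, Finset.mem_image, ih]
    constructor
    · rintro (⟨v, hv, rfl⟩ | ⟨v, hv, rfl⟩) <;> simp [hv]
    · intro h
      match w, h with
      | true :: v, h => exact Or.inl ⟨v, by simpa using h, rfl⟩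
      | false :: v, h => exact Or.inr ⟨v, by simpa using h, rfl⟩

theorem sum_W (f : List Bool → ℚ) (n : ℕ) :
    ∑ w ∈ W (n + 1), f w = ∑ w ∈ W n, f (true :: w) + ∑ w ∈ W n, f (false :: w) := by
  rw [W, Finset.sum_union, Finset.sum_image, Finset.sum_image]
  · intro a _ b _ h; simpa using h
  · intro a _ b _ h; simpa using h
  · rw [Finset.disjoint_left]
    intro x hx hx'
    obtain ⟨v, _, rfl⟩ := Finset.mem_image.mp hx
    obtain ⟨v', _, h⟩ := Finset.mem_image.mp hx'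
    simp at h

def hit (b : Bool) (l : ℕ) : ℕ → List Bool → Bool
  | h, [] => decide (l ≤ h)
  | h, x :: w => decide (l ≤ h) || hit b l (if x = b then h + 1 else h - 1) w

noncomputable def cnt (b : Bool) (l h n : ℕ) : ℚ := ∑ w ∈ W n, if hit b l h w then 1 else 0

theorem sum_W_one (n : ℕ) : ∑ _w ∈ W n, (1 : ℚ) = 2 ^ n := by
  induction n with
  | zero => simp [W]
  | succ n ih => rw [sum_W, ih]; ring

theorem cnt_top (b : Bool) (l n : ℕ) : cnt b l l n = 2 ^ n := by
  rw [← sum_W_one, cnt]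
  refine Finset.sum_congr rfl fun w _ => ?_
  cases w <;> simp [hit]

theorem cnt_zero (b : Bool) (l h : ℕ) (hl : h < l) : cnt b l h 0 = 0 := by
  simp [cnt, W, hit, hl]

theorem cnt_succ (b : Bool) (l h n : ℕ) (hl : h < l) :
    cnt b l h (n + 1) = cnt b l (h + 1) n + cnt b l (h - 1) n := by
  have : ¬ l ≤ h := by omega
  rw [cnt, sum_W]
  cases b
  · simp [hit, this, cnt, add_comm]
  · simp [hit, this, cnt]

noncomputable def Fs (b : Bool) (l h : ℕ) : ℚ⟦X⟧ := PowerSeries.mk (cnt b l h)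
noncomputable def Es : ℚ⟦X⟧ := PowerSeries.mk fun n => 2 ^ n

theorem Es_eq : (1 - 2 * X) * Es = 1 := by
  ext n
  have : (2 : ℚ⟦X⟧) = C 2 := by rw [map_ofNat]
  rw [sub_mul, one_mul, mul_assoc, this, map_sub, coeff_C_mul]
  cases n with
  | zero => simp [Es]
  | succ n => rw [coeff_succ_X_mul]; simp [Es, coeff_one, pow_succ, mul_comm]

theorem Fs_rec (b : Bool) (l h : ℕ) (hl : h < l) :
    Fs b l h = X * (Fs b l (h + 1) + Fs b l (h - 1)) := by
  ext n
  cases n with
  | zero => simp [Fs, cnt_zero b l h hl]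
  | succ n => rw [coeff_succ_X_mul]; simp [Fs, cnt_succ b l h n hl]

theorem Fs_top (b : Bool) (l : ℕ) : Fs b l l = Es := by
  ext n; simp [Fs, Es, cnt_top]

theorem sig_Fs (σ : ℚ⟦X⟧ →+* ℚ⟦X⟧) (Z : ℚ⟦X⟧) (hX : σ X = Z) (hZ : (1 + X ^ 2) * Z = X)
    (b : Bool) (l : ℕ) : ∀ h, h ≤ l →
      X ^ h * (1 + X) * σ (Fs b l h) = (1 + X ^ (2 * h + 1)) * σ (Fs b l 0) := by
  have hrec : ∀ h, h < l → (1 + X ^ 2) * σ (Fs b l h) =
      X * (σ (Fs b l (h + 1)) + σ (Fs b l (h - 1))) := by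
    intro h hl
    conv_lhs => rw [Fs_rec b l h hl, map_mul, hX, map_add, ← mul_assoc, hZ]
  intro h
  induction h using Nat.strong_induction_on with
  | _ h ih =>
  intro hl
  match h, ih, hl with
  | 0, _, _ => simp
  | 1, _, hl =>
    have := hrec 0 hl
    simp only [zero_add, Nat.zero_sub] at this
    linear_combination -(1 + X) * this
  | h + 2, ih, hl =>
    have h1 := ih (h + 1) (by omega) (by omega)
    have h0 := ih h (by omega) (by omega)
    have h2 := hrec (h + 1) (by omega)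
    simp only [Nat.add_sub_cancel] at h2
    linear_combination (1 + X ^ 2) * h1 - X ^ 2 * h0 - X ^ (h + 1) * (1 + X) * h2

noncomputable def Gs (d : ℕ) : ℚ⟦X⟧ :=
  PowerSeries.mk fun n => if d ∣ n then (-1 : ℚ) ^ (n / d) else 0

theorem Gs_eq (d : ℕ) (hd : 0 < d) : (1 + X ^ d) * Gs d = 1 := by
  ext n
  rw [add_mul, one_mul, map_add, coeff_X_pow_mul', coeff_one]
  simp only [Gs, coeff_mk]
  by_cases h : d ≤ n
  · obtain ⟨m, rfl⟩ := Nat.exists_eq_add_of_le h
    rw [if_pos h, Nat.add_sub_cancel_left, if_neg (by omega : ¬ d + m = 0)]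
    by_cases h2 : d ∣ m
    · rw [if_pos h2, if_pos ((Nat.dvd_add_right (dvd_refl d)).mpr h2), Nat.add_div_left _ hd,
        pow_succ]
      ring
    · rw [if_neg h2, if_neg (fun h3 => h2 ((Nat.dvd_add_right (dvd_refl d)).mp h3))]
      simp
  · rw [if_neg h, add_zero]
    by_cases h0 : n = 0
    · subst h0; simp
    · rw [if_neg h0, if_neg (Nat.not_dvd_of_pos_of_lt (by omega) (by omega))]

noncomputable def Ls (l : ℕ) : ℚ⟦X⟧ := X ^ l * Gs (2 * l + 1)

theorem sum_Ls (n N : ℕ) (h : n ≤ N) :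
    coeff n (∑ l ∈ Finset.range (N + 1), Ls l) = psi (2 * n + 1) := by
  rw [map_sum, psi, ← Nat.sum_div_divisors]
  simp only [Ls, coeff_X_pow_mul', Gs, coeff_mk]
  rw [← Finset.sum_filter_of_ne (p := fun l => l ≤ n ∧ (2 * l + 1) ∣ n - l)]
  · refine Finset.sum_nbij' (fun l => 2 * l + 1) (fun d => d / 2) ?_ ?_ ?_ ?_ ?_
    · intro l hl
      simp only [Finset.mem_filter, Finset.mem_range] at hl
      obtain ⟨_, h1, m, hm⟩ := hl
      rw [Nat.mem_divisors]
      refine ⟨⟨2 * m + 1, ?_⟩, by omega⟩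
      have : n = l + (2 * l + 1) * m := by omega
      rw [this]; ring
    · intro d hd
      obtain ⟨⟨e, he⟩, _⟩ := Nat.mem_divisors.mp hd
      have hodd : Odd (d * e) := ⟨n, he.symm⟩
      obtain ⟨⟨a, rfl⟩, ⟨c, rfl⟩⟩ := Nat.odd_mul.mp hodd
      have e1 : (2 * a + 1) / 2 = a := by omega
      have e2 : n = a + (2 * a + 1) * c := by nlinarith
      simp only [Finset.mem_filter, Finset.mem_range, e1]
      refine ⟨by omega, by omega, c, by omega⟩
    · intro l _; omega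
    · intro d hd
      obtain ⟨⟨e, he⟩, _⟩ := Nat.mem_divisors.mp hd
      have hodd : Odd (d * e) := ⟨n, he.symm⟩
      obtain ⟨⟨a, rfl⟩, _⟩ := Nat.odd_mul.mp hodd
      omega
    · intro l hl
      simp only [Finset.mem_filter, Finset.mem_range] at hl
      obtain ⟨_, h1, m, hm⟩ := hl
      rw [if_pos h1, if_pos ⟨m, hm⟩, hm, Nat.mul_div_cancel_left _ (by omega)]
      have : 2 * n + 1 = (2 * l + 1) * (2 * m + 1) := by
        have : n = l + (2 * l + 1) * m := by omega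
        rw [this]; ring
      rw [this, Nat.mul_div_cancel_left _ (by omega)]
      congr 1; omega
  · intro l _ hl
    by_cases h1 : l ≤ n
    · rw [if_pos h1] at hl
      refine ⟨h1, ?_⟩
      by_contra h2
      exact hl (if_neg h2)
    · exact absurd (if_neg h1) hl

theorem U_not_alg (U : ℚ⟦X⟧) (hU : ∀ n N, n ≤ N → coeff n U =
    2 ^ n + ∑ l ∈ Finset.range N, (cnt true (l + 1) 0 n + cnt false (l + 1) 0 n)) :
    ¬ IsAlgebraic ℚ[X] U := by
  intro h
  obtain ⟨σ, Z, hX, hZ, hXZ, halg⟩ := exists_sigma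
  apply psi_not_alg
  set Φ : ℚ⟦X⟧ := PowerSeries.mk fun n => psi (2 * n + 1) with hΦ
  have hE : (1 - 2 * Z) * σ Es = 1 := by
    have := congrArg σ Es_eq
    rwa [map_mul, map_sub, map_mul, map_one, map_ofNat, hX] at this
  have hF : ∀ b l, (1 - 2 * Z) * σ (Fs b l 0) = (1 + X) * Ls l := by
    intro b l
    have h1 := sig_Fs σ Z hX hZ b l l le_rfl
    rw [Fs_top] at h1
    have h2 := Gs_eq (2 * l + 1) (by omega)
    rw [Ls]
    linear_combination (-(1 - 2 * Z) * Gs (2 * l + 1)) * h1 +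
      (X ^ l * (1 + X) * Gs (2 * l + 1)) * hE - ((1 - 2 * Z) * σ (Fs b l 0)) * h2
  have hV : (1 - 2 * Z) * σ U + 1 = 2 * (1 + X) * Φ := by
    ext n
    have d1 : X ^ (n + 1) ∣ U - (Es + ∑ l ∈ Finset.range n,
        (Fs true (l + 1) 0 + Fs false (l + 1) 0)) := by
      rw [X_pow_dvd_iff]
      intro m hm
      rw [map_sub, hU m n (by omega)]
      simp [Es, Fs]
    have d2 := map_dvd σ d1
    rw [map_pow, hX] at d2
    have d3 := ((pow_dvd_pow_of_dvd hXZ (n + 1)).trans d2).mul_left (1 - 2 * Z)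
    have d4 : X ^ (n + 1) ∣ (∑ l ∈ Finset.range (n + 1), Ls l) - Φ := by
      rw [X_pow_dvd_iff]
      intro m hm
      rw [map_sub, sum_Ls m n (by omega), hΦ, coeff_mk, sub_self]
    have d5 := d3.add (d4.mul_left (2 * (1 + X)))
    have hL0 : (1 + X) * Ls 0 = 1 := by
      have := Gs_eq 1 one_pos
      simpa [Ls] using this
    have e : (1 - 2 * Z) * σ (U - (Es + ∑ l ∈ Finset.range n,
        (Fs true (l + 1) 0 + Fs false (l + 1) 0))) +
        2 * (1 + X) * ((∑ l ∈ Finset.range (n + 1), Ls l) - Φ) =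
        ((1 - 2 * Z) * σ U + 1) - 2 * (1 + X) * Φ := by
      have e1 : (1 - 2 * Z) * σ (∑ l ∈ Finset.range n, (Fs true (l + 1) 0 + Fs false (l + 1) 0)) =
          2 * (1 + X) * ∑ l ∈ Finset.range n, Ls (l + 1) := by
        rw [map_sum, Finset.mul_sum, Finset.mul_sum]
        refine Finset.sum_congr rfl fun l _ => ?_
        rw [map_add, mul_add, hF, hF]; ring
      rw [Finset.sum_range_succ', map_sub, map_add]
      linear_combination -e1 - hE + 2 * hL0
    rw [e, X_pow_dvd_iff] at d5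
    have := d5 n (by omega)
    rwa [map_sub, sub_eq_zero] at this
  have hZa : IsAlgebraic ℚ[X] Z := by
    rw [← hX]
    apply halg
    rw [← Polynomial.coe_X, ← alg_eq]
    exact isAlgebraic_algebraMap _
  have h2 : IsAlgebraic ℚ[X] (2 : ℚ⟦X⟧) := isAlgebraic_nat 2
  have h3 : IsAlgebraic ℚ[X] ((1 - 2 * Z) * σ U + 1) :=
    ((isAlgebraic_one.sub (h2.mul hZa)).mul (halg U h)).add isAlgebraic_one
  rw [hV] at h3
  have h4 : IsAlgebraic ℚ[X] ((2 * (1 + Polynomial.X) : ℚ[X]) • Φ) := by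
    rw [Algebra.smul_def, map_mul, map_add, map_one, map_ofNat, alg_eq, Polynomial.coe_X]
    exact h3
  refine h4.of_smul (mem_nonZeroDivisors_of_ne_zero ?_)
  intro h
  have := congrArg (fun q : ℚ[X] => q.eval 0) h
  simp at this

end Pool.Agent.H.MP_c4ee57_al
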