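import Mathlib

set_option autoImplicit false

namespace Pool.Agent.H.MP_c4ee57_al

/-- Word length of `g`: the least `n` such that `g` is a product of `n` elements of `S ∪ S⁻¹`. -/
noncomputable def wlen {G : Type} [Group G] (S : Finset G) (g : G) : ℕ :=
  sInf {n : ℕ | ∃ l : List G, l.length = n ∧ (∀ x ∈ l, x ∈ S ∨ x⁻¹ ∈ S) ∧ l.prod = g}

/-- Complete growth series: the coefficient of `z ^ n` is the sum, in the group ring `ℤG`, of all
`g` of word length `n`. -/
noncomputable def CG {G : Type} [Group G] (S : Finset G) : PowerSeries (MonoidAlgebra ℤ G) :=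
  PowerSeries.mk fun n => ∑ᶠ g ∈ {g : G | wlen S g = n}, MonoidAlgebra.single g (1 : ℤ)

/-- `A^* = 1 + A + A ^ 2 + ⋯` for `A` without constant term: the powers `A ^ k` with `k > n` do not
contribute to the coefficient of `z ^ n`. -/
noncomputable def kstar {R : Type} [Ring R] (A : PowerSeries R) : PowerSeries R :=
  PowerSeries.mk fun n => PowerSeries.coeff n (∑ k ∈ Finset.range (n + 1), A ^ k)

/-- `f` lies in the smallest subring of `R[[z]]` containing `R[z]` and closed under `A ↦ A^*` for
`A` with `A(0) = 0`. -/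
def IsRationalSeries {R : Type} [Ring R] (f : PowerSeries R) : Prop :=
  ∀ T : Subring (PowerSeries R), (∀ p : Polynomial R, (p : PowerSeries R) ∈ T) →
    (∀ A ∈ T, PowerSeries.constantCoeff A = 0 → kstar A ∈ T) → f ∈ T

/-- `f` is the first component of a solution of a proper system: `A i` equals a polynomial `c i`
plus a finite sum of monomials `c₀ A_{j₁} c₁ ⋯ A_{j_k} c_k`, each encoded as the pair
`(c₀, [(j₁, c₁), …, (j_k, c_k)])`, with `k ≥ 1` and some `c_m` divisible by `z`. -/
def IsAlgebraicSeries {R : Type} [Ring R] (f : PowerSeries R) : Prop :=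
  ∃ (n : ℕ) (A : Fin (n + 1) → PowerSeries R) (c : Fin (n + 1) → Polynomial R)
    (M : Fin (n + 1) → List (Polynomial R × List (Fin (n + 1) × Polynomial R))),
    (∀ i, ∀ m ∈ M i, m.2 ≠ [] ∧ (Polynomial.X ∣ m.1 ∨ ∃ p ∈ m.2, Polynomial.X ∣ p.2)) ∧
    (∀ i, A i = (c i : PowerSeries R) + ((M i).map fun m => (m.1 : PowerSeries R) *
      (m.2.map fun p => A p.1 * (p.2 : PowerSeries R)).prod).sum) ∧
    f = A 0

end Pool.Agent.H.MP_c4ee57_al
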