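import Pool.Agent.H.MP_c4ee57_al.Defs

set_option autoImplicit false

namespace Pool.Agent.H.MP_c4ee57_al

open scoped PowerSeries
open PowerSeries

section words
variable {G : Type} [Group G] (S : Finset G)

def Valid (l : List G) : Prop := ∀ x ∈ l, x ∈ S ∨ x⁻¹ ∈ S

theorem wlen_le (l : List G) (hl : Valid S l) : wlen S l.prod ≤ l.length :=
  Nat.sInf_le ⟨l, rfl, hl, rfl⟩

theorem ex_word (hS : Subgroup.closure (S : Set G) = ⊤) (g : G) :
    ∃ l : List G, Valid S l ∧ l.prod = g ∧ l.length = wlen S g := by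
  have hne : {n : ℕ | ∃ l : List G, l.length = n ∧ (∀ x ∈ l, x ∈ S ∨ x⁻¹ ∈ S) ∧
      l.prod = g}.Nonempty := by
    have hg : g ∈ (Subgroup.closure (S : Set G)).toSubmonoid := by rw [hS]; trivial
    rw [Subgroup.closure_toSubmonoid] at hg
    obtain ⟨l, hl, e⟩ := Submonoid.exists_list_of_mem_closure hg
    exact ⟨l.length, l, rfl, fun x hx => by simpa using hl x hx, e⟩
  obtain ⟨l, h1, h2, h3⟩ := Nat.sInf_mem hne
  exact ⟨l, h2, h3, h1⟩

theorem sphere_fin (hS : Subgroup.closure (S : Set G) = ⊤) (n : ℕ) :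
    {g : G | wlen S g = n}.Finite := by
  classical
  have h1 : {l : List G | l.length = n ∧ ∀ x ∈ l, x ∈ S ∪ S.image (fun y => y⁻¹)}.Finite := by
    induction n with
    | zero => exact (Set.finite_singleton []).subset fun l hl => List.length_eq_zero_iff.mp hl.1
    | succ n ih =>
      refine (((S ∪ S.image (fun y => y⁻¹)).finite_toSet.prod ih).image fun p => p.1 :: p.2).subset ?_
      rintro l ⟨h1, h2⟩
      match l, h1, h2 with
      | x :: l, h1, h2 =>
        exact ⟨(x, l), ⟨h2 x (by simp), by simpa using h1, fun y hy => h2 y (by simp [hy])⟩, rfl⟩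
  refine (h1.image List.prod).subset fun g hg => ?_
  obtain ⟨l, hl, e, hn⟩ := ex_word S hS g
  refine ⟨l, ⟨hn.trans hg, fun x hx => ?_⟩, e⟩
  rcases hl x hx with h | h
  · exact Finset.mem_union_left _ h
  · exact Finset.mem_union_right _ (Finset.mem_image.mpr ⟨x⁻¹, h, inv_inv x⟩)

theorem wlen_eq (len : G → ℕ) (h0 : len 1 = 0)
    (h1 : ∀ s x, (s ∈ S ∨ s⁻¹ ∈ S) → len (s * x) ≤ len x + 1)
    (h2 : ∀ x, x ≠ 1 → ∃ s y, (s ∈ S ∨ s⁻¹ ∈ S) ∧ x = s * y ∧ len x = len y + 1) :
    Subgroup.closure (S : Set G) = ⊤ ∧ ∀ g, wlen S g = len g := by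
  have ha : ∀ n g, len g = n → ∃ l : List G, Valid S l ∧ l.prod = g ∧ l.length = n := by
    intro n
    induction n with
    | zero =>
      intro g hg
      by_cases h : g = 1
      · exact ⟨[], by simp [Valid], by simp [h], rfl⟩
      · obtain ⟨s, y, _, _, e⟩ := h2 g h; omega
    | succ n ih =>
      intro g hg
      obtain ⟨s, y, hs, e, e'⟩ := h2 g (by rintro rfl; omega)
      obtain ⟨l, hl, e1, e2⟩ := ih y (by omega)
      refine ⟨s :: l, ?_, by simp [e1, e], by simp [e2]⟩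
      intro x hx
      rcases List.mem_cons.mp hx with rfl | hx
      · exact hs
      · exact hl x hx
  have hb : ∀ l : List G, Valid S l → len l.prod ≤ l.length := by
    intro l hl
    induction l with
    | nil => simp [h0]
    | cons s l ih =>
      have := ih fun x hx => hl x (by simp [hx])
      have := h1 s l.prod (hl s (by simp))
      simp only [List.prod_cons, List.length_cons]
      omega
  have hS : Subgroup.closure (S : Set G) = ⊤ := by
    rw [eq_top_iff]
    intro g _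
    obtain ⟨l, hl, rfl, _⟩ := ha _ g rfl
    refine Subgroup.list_prod_mem _ fun x hx => ?_
    rcases hl x hx with h | h
    · exact Subgroup.subset_closure h
    · exact (Subgroup.inv_mem_iff _).mp (Subgroup.subset_closure h)
  refine ⟨hS, fun g => le_antisymm ?_ ?_⟩
  · obtain ⟨l, hl, e, e'⟩ := ha _ g rfl
    rw [← e', ← e]; exact wlen_le S l hl
  · obtain ⟨l, hl, e, e'⟩ := ex_word S hS g
    rw [← e', ← e]; exact hb l hl

end words

theorem kstar_mul {R : Type} [Ring R] (B : R⟦X⟧) (hB : constantCoeff B = 0) :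
    kstar B * (1 - B) = 1 := by
  obtain ⟨B', rfl⟩ := X_dvd_iff.mpr hB
  have hp : ∀ k : ℕ, (X : R⟦X⟧) ^ k ∣ (X * B') ^ k := fun k =>
    ⟨B' ^ k, ((commute_X B').symm.mul_pow k)⟩
  ext n
  have d1 : (X : R⟦X⟧) ^ (n + 1) ∣ kstar (X * B') - ∑ k ∈ Finset.range (n + 1), (X * B') ^ k := by
    rw [X_pow_dvd_iff]
    intro m hm
    obtain ⟨d, hd⟩ := Nat.exists_eq_add_of_le (show m + 1 ≤ n + 1 by omega)
    have hz : coeff m (∑ k ∈ Finset.range d, (X * B') ^ (m + 1 + k)) = 0 := by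
      rw [map_sum]
      exact Finset.sum_eq_zero fun k _ => X_pow_dvd_iff.mp (hp _) m (by omega)
    rw [map_sub, kstar, coeff_mk, hd, Finset.sum_range_add _ (m + 1) d, map_add, hz, add_zero,
      sub_self]
  have d2 := (d1.mul_right (1 - X * B')).sub (hp (n + 1))
  rw [sub_mul, geom_sum_mul_neg] at d2
  have := X_pow_dvd_iff.mp d2 n (by omega)
  rw [show kstar (X * B') * (1 - X * B') - (1 - (X * B') ^ (n + 1)) - (X * B') ^ (n + 1) =
    kstar (X * B') * (1 - X * B') - 1 by abel, map_sub, sub_eq_zero] at this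
  exact this

section tree
variable {G : Type} [Group G] (len : G → ℕ)

noncomputable def Ser (Y : Set G) : (MonoidAlgebra ℤ G)⟦X⟧ :=
  PowerSeries.mk fun n => ∑ᶠ g ∈ {g : G | g ∈ Y ∧ len g = n}, MonoidAlgebra.single g (1 : ℤ)

open Classical in
theorem coeff_Ser (hfin : ∀ n, {g : G | len g = n}.Finite) (Y : Set G) (n : ℕ) (g : G) :
    (coeff n (Ser len Y)).coeff g = if g ∈ Y ∧ len g = n then 1 else 0 := by
  have h : {g : G | g ∈ Y ∧ len g = n}.Finite := (hfin n).subset fun _ h => h.2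
  rw [Ser, coeff_mk, finsum_mem_eq_finite_toFinset_sum _ h, MonoidAlgebra.coeff_sum]
  simp [Finsupp.single_apply]

theorem tree_eq (hfin : ∀ n, {g : G | len g = n}.Finite) {ι : Type} [Fintype ι] (T : ι → G) (q : ℕ)
    (Y Z : Set G) (ha : ∀ i x, T i * x ∈ Y ↔ x ∈ Y) (hb : Z ⊆ Y)
    (hc : ∀ x ∈ Y, x ∉ Z → ∃ m, len x = m + 1 ∧ ∀ n, (∑ i, if len (T i * x) = n then 1 else 0 : ℤ) =
      (if m = n then 1 else 0) + q * (if m + 2 = n then 1 else 0))
    (hd : ∀ x ∈ Z, ∀ n, (∑ i, if len (T i * x) = n then 1 else 0 : ℤ) =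
      (q + 1) * (if len x + 1 = n then 1 else 0)) :
    (1 - (X * C (∑ i, MonoidAlgebra.single (T i)⁻¹ (1 : ℤ)) - X ^ 2 * C (q : MonoidAlgebra ℤ G))) *
      Ser len Y = (1 - X ^ 2) * Ser len Z := by
  classical
  ext n g
  have e1 : ∀ m, (coeff m (C (∑ i, MonoidAlgebra.single (T i)⁻¹ (1 : ℤ)) * Ser len Y)).coeff g =
      if g ∈ Y then ∑ i, if len (T i * g) = m then 1 else 0 else 0 := by
    intro m
    rw [coeff_C_mul, Finset.sum_mul, MonoidAlgebra.coeff_sum, Finsupp.finsetSum_apply]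
    simp only [MonoidAlgebra.coeff_single_mul_apply, inv_inv, one_mul, coeff_Ser len hfin, ha]
    split_ifs with h <;> simp [h]
  have e2 : ∀ m, (coeff m (C (q : MonoidAlgebra ℤ G) * Ser len Y)).coeff g =
      q * if g ∈ Y ∧ len g = m then 1 else 0 := by
    intro m
    rw [coeff_C_mul, ← nsmul_eq_mul, MonoidAlgebra.coeff_smul, Finsupp.smul_apply,
      coeff_Ser len hfin, nsmul_eq_mul]
  rw [sub_mul, sub_mul, sub_mul, one_mul, one_mul, mul_assoc, mul_assoc, map_sub, map_sub, map_sub,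
    ← pow_one (X : (MonoidAlgebra ℤ G)⟦X⟧), ← pow_mul, coeff_X_pow_mul', coeff_X_pow_mul',
    coeff_X_pow_mul']
  simp only [MonoidAlgebra.coeff_sub, Finsupp.sub_apply, apply_ite MonoidAlgebra.coeff,
    apply_ite (fun f : G →₀ ℤ => f g), DFunLike.ite_apply, MonoidAlgebra.coeff_zero,
    Finsupp.zero_apply, e1, e2, coeff_Ser len hfin]
  by_cases hY : g ∈ Y
  · by_cases hZ : g ∈ Z
    · simp only [hY, hZ, true_and, if_true, hd g hZ]
      split_ifs <;> first | omega | simp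
    · obtain ⟨m, hm, hc'⟩ := hc g hY hZ
      simp only [hY, hZ, true_and, false_and, if_true, if_false, hc', hm]
      split_ifs <;> first | omega | simp
  · have hZ : g ∉ Z := fun h => hY (hb h)
    simp [hY, hZ]

theorem rat_step (f g : (MonoidAlgebra ℤ G)⟦X⟧) (a b : MonoidAlgebra ℤ G)
    (h : (1 - (X * C a - X ^ 2 * C b)) * f = (1 - X ^ 2) * g) (hg : IsRationalSeries g) :
    IsRationalSeries f := by
  intro T hT hs
  have hX : (X : (MonoidAlgebra ℤ G)⟦X⟧) ∈ T := by simpa using hT Polynomial.X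
  have hC : ∀ c, (C c : (MonoidAlgebra ℤ G)⟦X⟧) ∈ T := fun c => by simpa using hT (Polynomial.C c)
  have hB : X * C a - X ^ 2 * C b ∈ T :=
    T.sub_mem (T.mul_mem hX (hC a)) (T.mul_mem (T.pow_mem hX 2) (hC b))
  have h0 : constantCoeff (X * C a - X ^ 2 * C b : (MonoidAlgebra ℤ G)⟦X⟧) = 0 := by simp
  have : f = kstar (X * C a - X ^ 2 * C b) * ((1 - X ^ 2) * g) := by
    rw [← h, ← mul_assoc, kstar_mul _ h0, one_mul]
  rw [this]
  exact T.mul_mem (hs _ hB h0) (T.mul_mem (T.sub_mem T.one_mem (T.pow_mem hX 2)) (hg T hT hs))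

end tree

end Pool.Agent.H.MP_c4ee57_al
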