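import Pool.Agent.H.MP_c4ee57_al.E

set_option autoImplicit false

namespace Pool.Agent.H.MP_c4ee57_al

def sg (m : ℤ) : ℤ := (m.negOnePow : ℤ)

theorem sg_add (a b : ℤ) : sg (a + b) = sg a * sg b := by simp [sg, Int.negOnePow_add]
@[simp] theorem sg_zero : sg 0 = 1 := by simp [sg]
@[simp] theorem sg_one : sg 1 = -1 := by simp [sg]
@[simp] theorem sg_neg (a : ℤ) : sg (-a) = sg a := by simp [sg]
theorem sg_sq (a : ℤ) : sg a * sg a = 1 := by
  have := sg_add a (-a)
  simpa using this.symm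

@[ext] structure Kb where
  k : ℤ
  m : ℤ
deriving DecidableEq

instance : Mul Kb := ⟨fun x y => ⟨x.k + sg x.m * y.k, x.m + y.m⟩⟩
instance : One Kb := ⟨⟨0, 0⟩⟩
instance : Inv Kb := ⟨fun x => ⟨-(sg x.m * x.k), -x.m⟩⟩

@[simp] theorem mul_k (x y : Kb) : (x * y).k = x.k + sg x.m * y.k := rfl
@[simp] theorem mul_m (x y : Kb) : (x * y).m = x.m + y.m := rfl
@[simp] theorem one_k : (1 : Kb).k = 0 := rfl
@[simp] theorem one_m : (1 : Kb).m = 0 := rfl
@[simp] theorem inv_k (x : Kb) : (x⁻¹).k = -(sg x.m * x.k) := rfl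
@[simp] theorem inv_m (x : Kb) : (x⁻¹).m = -x.m := rfl

instance : Group Kb := Group.ofLeftAxioms
  (fun x y z => by ext <;> simp [sg_add] <;> ring)
  (fun x => by ext <;> simp)
  (fun x => by ext <;> simp)

abbrev GG := FreeGroup Bool × Kb

def len (g : GG) : ℕ := g.1.norm + g.2.k.natAbs + g.2.m.natAbs

def lt (p : Bool × Bool) : GG := (FreeGroup.mk [p], 1)
def tt (b : Bool) : GG := (1, ⟨if b then 1 else -1, 0⟩)
def rr (b : Bool) : GG := (1, ⟨0, if b then 1 else -1⟩)

def S1 : Finset GG := {lt (true, true), lt (false, true), tt true, rr true}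

theorem lt_inv (p : Bool × Bool) : (lt p)⁻¹ = lt (p.1, !p.2) := by
  simp [lt, FreeGroup.inv_mk, FreeGroup.invRev]
theorem tt_inv (b : Bool) : (tt b)⁻¹ = tt (!b) := by
  cases b <;> (refine Prod.ext (by simp [tt]) ?_; ext <;> simp [tt])
theorem rr_inv (b : Bool) : (rr b)⁻¹ = rr (!b) := by
  cases b <;> (refine Prod.ext (by simp [rr]) ?_; ext <;> simp [rr])

theorem mem_S1 (s : GG) : (s ∈ S1 ∨ s⁻¹ ∈ S1) ↔
    (∃ p, s = lt p) ∨ (∃ b, s = tt b) ∨ (∃ b, s = rr b) := by
  constructor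
  · simp only [S1, Finset.mem_insert, Finset.mem_singleton, inv_eq_iff_eq_inv, lt_inv, tt_inv,
      rr_inv]
    rintro ((h | h | h | h) | (h | h | h | h)) <;> simp [h]
    all_goals exact Or.inl ⟨_, _, rfl⟩
  · rintro (⟨⟨a, b⟩, rfl⟩ | ⟨b, rfl⟩ | ⟨b, rfl⟩)
    · cases a <;> cases b <;> simp [S1, lt_inv]
    · cases b <;> simp [S1, tt_inv]
    · cases b <;> simp [S1, rr_inv]

theorem norm_lt (p y : Bool × Bool) (w : List (Bool × Bool)) (u : FreeGroup Bool)
    (h : u.toWord = y :: w) : (FreeGroup.mk [p] * u).norm =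
      if p.1 = y.1 ∧ p.2 = !y.2 then w.length else w.length + 2 := by
  have e : FreeGroup.mk [p] * u = FreeGroup.mk (p :: u.toWord) := by
    conv_lhs => rw [← FreeGroup.mk_toWord (x := u), FreeGroup.mul_mk]
    rfl
  rw [FreeGroup.norm, e, FreeGroup.toWord_mk, FreeGroup.reduce.cons, FreeGroup.reduce_toWord, h]
  dsimp only
  split_ifs <;> simp

theorem norm_lt1 (p : Bool × Bool) : (FreeGroup.mk [p]).norm = 1 := by
  simp [FreeGroup.norm, FreeGroup.toWord_mk]

theorem len_lt (p : Bool × Bool) (x : GG) :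
    len (lt p * x) = (FreeGroup.mk [p] * x.1).norm + x.2.k.natAbs + x.2.m.natAbs := by
  simp [len, lt]

theorem len_tt (b : Bool) (x : GG) :
    len (tt b * x) = x.1.norm + ((if b then 1 else -1) + x.2.k).natAbs + x.2.m.natAbs := by
  simp [len, tt]

theorem len_rr (b : Bool) (x : GG) :
    len (rr b * x) = x.1.norm + x.2.k.natAbs + ((if b then 1 else -1) + x.2.m).natAbs := by
  cases b <;> simp [len, rr]

theorem S1_len : Subgroup.closure (S1 : Set GG) = ⊤ ∧ ∀ g, wlen S1 g = len g := by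
  apply wlen_eq
  · simp [len]
  · intro s x hs
    rcases (mem_S1 s).mp hs with ⟨p, rfl⟩ | ⟨b, rfl⟩ | ⟨b, rfl⟩
    · have := FreeGroup.norm_mul_le (FreeGroup.mk [p]) x.1
      rw [norm_lt1] at this
      rw [len_lt, len]; omega
    · rw [len_tt, len]; cases b <;> simp <;> omega
    · rw [len_rr, len]; cases b <;> simp <;> omega
  · intro x hx
    suffices h : ∃ s, (s⁻¹ ∈ S1 ∨ s⁻¹⁻¹ ∈ S1) ∧ len x = len (s * x) + 1 by
      obtain ⟨s, h1, h2⟩ := h
      exact ⟨s⁻¹, s * x, h1, by simp, h2⟩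
    simp only [mem_S1]
    by_cases h1 : x.1 = 1
    · by_cases h2 : x.2.k = 0
      · have h3 : x.2.m ≠ 0 := fun h3 => hx (Prod.ext h1 (Kb.ext h2 h3))
        refine ⟨rr (decide (x.2.m < 0)), Or.inr (Or.inr ⟨_, rr_inv _⟩), ?_⟩
        rw [len_rr, len]
        by_cases h : x.2.m < 0 <;> simp [h] <;> omega
      · refine ⟨tt (decide (x.2.k < 0)), Or.inr (Or.inl ⟨_, tt_inv _⟩), ?_⟩
        rw [len_tt, len]
        by_cases h : x.2.k < 0 <;> simp [h] <;> omega
    · obtain ⟨y, w, h⟩ := List.exists_cons_of_ne_nil (mt FreeGroup.toWord_eq_nil_iff.mp h1)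
      refine ⟨lt (y.1, !y.2), Or.inl ⟨_, lt_inv _⟩, ?_⟩
      rw [len_lt, norm_lt _ y w _ h, len, FreeGroup.norm, h]
      simp; omega

theorem S1_rat : IsRationalSeries (CG S1) := by
  have hfin : ∀ n, {g : GG | len g = n}.Finite := by
    intro n
    have := sphere_fin S1 S1_len.1 n
    simpa only [S1_len.2] using this
  have e0 : CG S1 = Ser len Set.univ := by
    simp only [CG, Ser, S1_len.2, Set.mem_univ, true_and]
  have r0 : IsRationalSeries (Ser len {1}) := by
    have : Ser len {1} = 1 := by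
      ext n g
      rw [coeff_Ser len hfin, PowerSeries.coeff_one]
      by_cases hg : g = 1
      · subst hg
        by_cases hn : n = 0
        · simp [hn, len]
        · simp [hn, len, Ne.symm hn]
      · by_cases hn : n = 0
        · simp [hn, hg, MonoidAlgebra.one_def]
        · simp [hn, hg]
    rw [this]
    intro T _ _
    exact T.one_mem
  have r1 : IsRationalSeries (Ser len {x : GG | x.1 = 1 ∧ x.2.k = 0}) := by
    refine rat_step _ _ _ _ (tree_eq len hfin rr 1 _ {1} ?_ ?_ ?_ ?_) r0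
    · intro b x; cases b <;> simp [rr]
    · rintro x rfl; simp
    · rintro x ⟨h1, h2⟩ hx
      have h3 : x.2.m ≠ 0 := fun h3 => hx (Prod.ext h1 (Kb.ext h2 h3))
      refine ⟨x.2.m.natAbs - 1, by simp [len, h1, h2]; omega, fun n => ?_⟩
      simp only [Fintype.sum_bool, len_rr, h1, h2, if_true, Bool.false_eq_true, if_false,
        FreeGroup.norm_one]
      split_ifs <;> omega
    · rintro x rfl n
      simp only [Fintype.sum_bool, len_rr, if_true, Bool.false_eq_true, if_false]
      simp [len]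
      split_ifs <;> omega
  have r2 : IsRationalSeries (Ser len {x : GG | x.1 = 1}) := by
    refine rat_step _ _ _ _ (tree_eq len hfin tt 1 _ _ ?_ ?_ ?_ ?_) r1
    · intro b x; simp [tt]
    · exact fun x hx => hx.1
    · intro x h1 hx
      have h1' : x.1 = 1 := h1
      have h3 : x.2.k ≠ 0 := fun h3 => hx ⟨h1, h3⟩
      refine ⟨x.2.k.natAbs - 1 + x.2.m.natAbs, by simp [len, h1']; omega, fun n => ?_⟩
      simp only [Fintype.sum_bool, len_tt, h1', if_true, Bool.false_eq_true, if_false,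
        FreeGroup.norm_one]
      split_ifs <;> omega
    · rintro x ⟨h1, h2⟩ n
      simp only [Fintype.sum_bool, len_tt, if_true, Bool.false_eq_true, if_false]
      simp only [len, h1, h2, FreeGroup.norm_one]
      split_ifs <;> omega
  rw [e0]
  refine rat_step _ _ _ _ (tree_eq len hfin lt 3 _ _ ?_ ?_ ?_ ?_) r2
  · intro b x; simp
  · exact fun x _ => trivial
  · intro x _ h1
    obtain ⟨y, w, h⟩ := List.exists_cons_of_ne_nil (mt FreeGroup.toWord_eq_nil_iff.mp h1)
    refine ⟨w.length + x.2.k.natAbs + x.2.m.natAbs, ?_, fun n => ?_⟩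
    · rw [len, FreeGroup.norm, h]; simp; omega
    · simp only [len_lt, norm_lt _ y w _ h, Fintype.sum_prod_type, Fintype.sum_bool]
      obtain ⟨a, b⟩ := y
      cases a <;> cases b <;> simp <;> split_ifs <;> omega
  · intro x h1 n
    have h1' : x.1 = 1 := h1
    simp only [len_lt, h1', mul_one, norm_lt1, Fintype.sum_prod_type, Fintype.sum_bool]
    simp only [len, h1', FreeGroup.norm_one]
    split_ifs <;> omega

end Pool.Agent.H.MP_c4ee57_al
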