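import Pool.Agent.H.MP_c4ee57_al.D
import Pool.Agent.H.MP_c4ee57_al.F

set_option autoImplicit false

namespace Pool.Agent.H.MP_c4ee57_al

def vl (b x : Bool) : ℤ := if x = b then 1 else -1
def sm (b : Bool) (w : List Bool) : ℤ := (w.map (vl b)).sum

@[simp] theorem sm_nil (b : Bool) : sm b [] = 0 := rfl
@[simp] theorem sm_cons (b x : Bool) (w : List Bool) : sm b (x :: w) = vl b x + sm b w := by
  simp [sm]
@[simp] theorem sm_app (b : Bool) (v w : List Bool) : sm b (v ++ w) = sm b v + sm b w := by
  simp [sm]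

theorem sm_false (w : List Bool) : sm false w = - sm true w := by
  induction w with
  | nil => simp
  | cons x w ih => cases x <;> simp [ih, vl] <;> ring

theorem sm_le (b : Bool) (w : List Bool) : sm b w ≤ w.length := by
  induction w with
  | nil => simp
  | cons x w ih => simp only [sm_cons, vl, List.length_cons]; split_ifs <;> omega

theorem hit_iff (b : Bool) (l : ℕ) (w : List Bool) : ∀ h : ℕ, hit b l h w = true ↔
    (∃ p q, w = p ++ q ∧ (l : ℤ) ≤ h + sm b p) ∨ (∃ a p q, w = a ++ p ++ q ∧ (l : ℤ) ≤ sm b p) := by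
  induction w with
  | nil =>
    intro h
    simp only [hit, decide_eq_true_eq]
    constructor
    · intro hl; exact Or.inl ⟨[], [], rfl, by simpa using hl⟩
    · rintro (⟨p, q, e, hl⟩ | ⟨a, p, q, e, hl⟩)
      · obtain rfl : p = [] := by simpa using (List.append_eq_nil_iff.mp e.symm).1
        simpa using hl
      · obtain rfl : p = [] := by
          have := (List.append_eq_nil_iff.mp e.symm).1
          exact (List.append_eq_nil_iff.mp this).2
        simp only [sm_nil] at hl
        omega
  | cons x w ih =>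
    intro h
    simp only [hit, Bool.or_eq_true, decide_eq_true_eq, ih]
    constructor
    · rintro (hl | ⟨p, q, e, hl⟩ | ⟨a, p, q, e, hl⟩)
      · exact Or.inl ⟨[], x :: w, rfl, by simpa using hl⟩
      · by_cases h0 : x ≠ b ∧ h = 0
        · refine Or.inr ⟨[x], p, q, by simp [e], ?_⟩
          simpa [h0.1, h0.2] using hl
        · refine Or.inl ⟨x :: p, q, by simp [e], ?_⟩
          simp only [sm_cons, vl]
          split_ifs at hl ⊢ with hx
          · push_cast at hl; omega
          · have : h ≠ 0 := fun h1 => h0 ⟨hx, h1⟩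
            omega
      · exact Or.inr ⟨x :: a, p, q, by simp [e], hl⟩
    · rintro (⟨p, q, e, hl⟩ | ⟨a, p, q, e, hl⟩)
      · cases p with
        | nil => exact Or.inl (by simpa using hl)
        | cons y p =>
          obtain ⟨rfl, e'⟩ := List.cons.inj e
          refine Or.inr (Or.inl ⟨p, q, e', ?_⟩)
          simp only [sm_cons, vl] at hl
          split_ifs at hl ⊢ <;> omega
      · cases a with
        | cons y a =>
          obtain ⟨rfl, e'⟩ := List.cons.inj e
          exact Or.inr (Or.inr ⟨a, p, q, e', hl⟩)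
        | nil =>
          cases p with
          | nil => simp only [sm_nil] at hl; exact Or.inl (by omega)
          | cons y p =>
            obtain ⟨rfl, e'⟩ := List.cons.inj e
            refine Or.inr (Or.inl ⟨p, q, e', ?_⟩)
            simp only [sm_cons, vl] at hl
            split_ifs at hl ⊢ <;> omega

theorem ivt (b : Bool) (l : ℕ) (p : List Bool) (h : (l : ℤ) ≤ sm b p) :
    ∃ a p', p = a ++ p' ∧ sm b p' = l := by
  induction p with
  | nil => exact ⟨[], [], rfl, by simp only [sm_nil] at h ⊢; omega⟩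
  | cons x p ih =>
    by_cases e : sm b (x :: p) = l
    · exact ⟨[], x :: p, rfl, e⟩
    · obtain ⟨a, p', e1, e2⟩ := ih (by
        simp only [sm_cons, vl] at h e
        split_ifs at h e <;> omega)
      exact ⟨x :: a, p', by simp [e1], e2⟩

def inI (w : List Bool) (j : ℤ) : Prop := ∃ a p q, w = a ++ p ++ q ∧ sm true p = j

theorem hit_zero (b : Bool) (l : ℕ) (w : List Bool) :
    hit b l 0 w = true ↔ ∃ a p q, w = a ++ p ++ q ∧ sm b p = l := by
  rw [hit_iff]
  constructor
  · rintro (⟨p, q, e, hl⟩ | ⟨a, p, q, e, hl⟩)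
    · obtain ⟨a', p', e1, e2⟩ := ivt b l p (by simpa using hl)
      exact ⟨a', p', q, by rw [e, e1], e2⟩
    · obtain ⟨a', p', e1, e2⟩ := ivt b l p hl
      exact ⟨a ++ a', p', q, by simp [e, e1], e2⟩
  · rintro ⟨a, p, q, e, hl⟩
    exact Or.inr ⟨a, p, q, e, hl.ge⟩

theorem sum_Icc_symm (f : ℤ → ℚ) (N : ℕ) : ∑ j ∈ Finset.Icc (-(N : ℤ)) N, f j =
    f 0 + ∑ l ∈ Finset.range N, (f ((l + 1 : ℕ) : ℤ) + f (-((l + 1 : ℕ) : ℤ))) := by
  induction N with
  | zero => simp
  | succ N ih =>
    have : Finset.Icc (-((N + 1 : ℕ) : ℤ)) ((N + 1 : ℕ) : ℤ) = insert ((N + 1 : ℕ) : ℤ)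
        (insert (-((N + 1 : ℕ) : ℤ)) (Finset.Icc (-(N : ℤ)) N)) := by
      ext j; simp only [Finset.mem_Icc, Finset.mem_insert]; omega
    rw [this, Finset.sum_insert, Finset.sum_insert, ih, Finset.sum_range_succ]
    · ring
    · simp only [Finset.mem_Icc]; omega
    · simp only [Finset.mem_Icc, Finset.mem_insert]; omega

open Classical in
noncomputable def Pn (n N : ℕ) : Finset (List Bool × ℤ) :=
  (W n ×ˢ Finset.Icc (-(N : ℤ)) N).filter fun x => inI x.1 x.2

theorem mem_Pn (n N : ℕ) (h : n ≤ N) (x : List Bool × ℤ) :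
    x ∈ Pn n N ↔ x.1.length = n ∧ inI x.1 x.2 := by
  simp only [Pn, Finset.mem_filter, Finset.mem_product, mem_W, Finset.mem_Icc]
  constructor
  · exact fun h => ⟨h.1.1, h.2⟩
  · rintro ⟨h1, a, p, q, e, h2⟩
    refine ⟨⟨h1, ?_⟩, a, p, q, e, h2⟩
    have h3 := sm_le true p
    have h4 := sm_le false p
    rw [sm_false] at h4
    have h5 : p.length ≤ n := by rw [← h1, e]; simp; omega
    omega

theorem card_Pn (n N : ℕ) : ((Pn n N).card : ℚ) =
    2 ^ n + ∑ l ∈ Finset.range N, (cnt true (l + 1) 0 n + cnt false (l + 1) 0 n) := by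
  classical
  rw [Pn, Finset.card_filter, Nat.cast_sum, Finset.sum_product_right, sum_Icc_symm, ← sum_W_one]
  congr 1
  · refine Finset.sum_congr rfl fun w _ => ?_
    rw [if_pos ⟨[], [], w, rfl, rfl⟩]; simp
  · refine Finset.sum_congr rfl fun l _ => ?_
    congr 1
    · refine Finset.sum_congr rfl fun w _ => ?_
      simp only [hit_zero, inI, Nat.cast_ite, Nat.cast_one, Nat.cast_zero]
    · refine Finset.sum_congr rfl fun w _ => ?_
      simp only [hit_zero, inI, Nat.cast_ite, Nat.cast_one, Nat.cast_zero, sm_false,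
        neg_eq_iff_eq_neg]

def al (x : Bool) : GG := (FreeGroup.of x, ⟨vl true x, 0⟩)
def S2 : Finset GG := {al true, al false, rr true, tt true}

def ex : FreeGroup Bool →* Multiplicative ℤ := FreeGroup.lift fun _ => Multiplicative.ofAdd 1
def ps (g : GG) : ℤ := 3 * (ex g.1).toAdd + 2 * g.2.m

theorem ps_mul (g h : GG) : ps (g * h) = ps g + ps h := by simp [ps]; ring
theorem ps_one : ps 1 = 0 := by simp [ps]
theorem ps_inv (g : GG) : ps g⁻¹ = - ps g := by simp [ps]; ring
theorem ps_al (x : Bool) : ps (al x) = 3 := by simp [ps, al, ex]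
theorem ps_rr : ps (rr true) = 2 := by simp [ps, rr]
theorem ps_tt : ps (tt true) = 0 := by simp [ps, tt]

theorem S2_top : Subgroup.closure (S2 : Set GG) = ⊤ := by
  rw [eq_top_iff, ← S1_len.1, Subgroup.closure_le]
  have h : ∀ s ∈ S2, s ∈ Subgroup.closure (S2 : Set GG) := fun s hs => Subgroup.subset_closure hs
  have ht := h (tt true) (by simp [S2])
  intro s hs
  simp only [S1, Finset.coe_insert, Finset.coe_singleton, Set.mem_insert_iff,
    Set.mem_singleton_iff] at hs
  rcases hs with rfl | rfl | rfl | rfl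
  · have : lt (true, true) = al true * (tt true)⁻¹ := by
      refine Prod.ext (by simp [lt, al, tt]; rfl) ?_
      ext <;> simp [lt, al, tt, vl]
    rw [this]
    exact Subgroup.mul_mem _ (h _ (by simp [S2])) (Subgroup.inv_mem _ ht)
  · have : lt (false, true) = al false * tt true := by
      refine Prod.ext (by simp [lt, al, tt]; rfl) ?_
      ext <;> simp [lt, al, tt, vl]
    rw [this]
    exact Subgroup.mul_mem _ (h _ (by simp [S2])) ht
  · exact ht
  · exact h _ (by simp [S2])

theorem letter (s : GG) (hs : s ∈ S2 ∨ s⁻¹ ∈ S2) : (∃ x, s = al x) ∨ s = rr true ∨ ps s ≤ 0 := by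
  rcases hs with hs | hs
  · simp only [S2, Finset.mem_insert, Finset.mem_singleton] at hs
    rcases hs with rfl | rfl | rfl | rfl
    · exact Or.inl ⟨_, rfl⟩
    · exact Or.inl ⟨_, rfl⟩
    · exact Or.inr (Or.inl rfl)
    · exact Or.inr (Or.inr ps_tt.le)
  · refine Or.inr (Or.inr ?_)
    have := ps_inv s
    simp only [S2, Finset.mem_insert, Finset.mem_singleton] at hs
    rcases hs with h | h | h | h <;> rw [h] at this <;>
      simp only [ps_al, ps_rr, ps_tt] at this <;> omega

def AA (w : List Bool) : GG := (w.map al).prod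

theorem AA_cons (x : Bool) (w : List Bool) : AA (x :: w) = al x * AA w := by simp [AA]

theorem defect (l : List GG) (hl : Valid S2 l) : ps l.prod ≤ 3 * l.length ∧
    (3 * l.length - ps l.prod = 0 → ∃ w, l.prod = AA w ∧ l.length = w.length) ∧
    (3 * l.length - ps l.prod = 1 → ∃ v w, l.prod = AA v * rr true * AA w ∧
      l.length = v.length + w.length + 1) ∧
    (3 * l.length - ps l.prod = 2 → ∃ u v w, l.prod = AA u * rr true * AA v * rr true * AA w ∧
      l.length = u.length + v.length + w.length + 2) := by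
  induction l with
  | nil => exact ⟨by simp [ps_one], fun _ => ⟨[], rfl, rfl⟩, by simp [ps_one], by simp [ps_one]⟩
  | cons s l ih =>
    obtain ⟨i0, i1, i2, i3⟩ := ih fun x hx => hl x (by simp [hx])
    simp only [List.prod_cons, List.length_cons, ps_mul]
    rcases letter s (hl s (by simp)) with ⟨x, rfl⟩ | rfl | h
    · rw [ps_al]
      refine ⟨by omega, fun h => ?_, fun h => ?_, fun h => ?_⟩
      · obtain ⟨w, e1, e2⟩ := i1 (by omega)
        exact ⟨x :: w, by rw [e1, AA_cons], by simp [e2]⟩
      · obtain ⟨v, w, e1, e2⟩ := i2 (by omega)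
        exact ⟨x :: v, w, by rw [e1, AA_cons]; simp only [mul_assoc], by simp [e2]; omega⟩
      · obtain ⟨u, v, w, e1, e2⟩ := i3 (by omega)
        exact ⟨x :: u, v, w, by rw [e1, AA_cons]; simp only [mul_assoc], by simp [e2]; omega⟩
    · rw [ps_rr]
      refine ⟨by omega, fun h => by omega, fun h => ?_, fun h => ?_⟩
      · obtain ⟨w, e1, e2⟩ := i1 (by omega)
        exact ⟨[], w, by rw [e1]; simp [AA], by simp [e2]⟩
      · obtain ⟨v, w, e1, e2⟩ := i2 (by omega)
        exact ⟨[], v, w, by rw [e1]; simp [AA, mul_assoc], by simp [e2]⟩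
    · exact ⟨by omega, fun h => by omega, fun h => by omega, fun h => by omega⟩

def PP (w : List Bool) : FreeGroup Bool := FreeGroup.mk (w.map fun x => (x, true))

theorem PP_app (v w : List Bool) : PP (v ++ w) = PP v * PP w := by simp [PP]

theorem PP_word (w : List Bool) : (PP w).toWord = w.map fun x => (x, true) := by
  rw [PP, FreeGroup.toWord_mk]
  induction w with
  | nil => rfl
  | cons x w ih =>
    rw [List.map_cons, FreeGroup.reduce.cons, ih]
    cases w <;> simp

theorem PP_inj : Function.Injective PP := by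
  intro v w h
  have := congrArg FreeGroup.toWord h
  rw [PP_word, PP_word] at this
  exact List.map_injective_iff.mpr (fun a b h => (Prod.ext_iff.mp h).1) this

theorem AA_eq (w : List Bool) : AA w = (PP w, ⟨sm true w, 0⟩) := by
  induction w with
  | nil => rfl
  | cons x w ih =>
    rw [AA_cons, ih]
    refine Prod.ext ?_ ?_
    · exact (PP_app [x] w).symm
    · ext <;> simp [al]

def el (x : List Bool × ℤ) : GG := (PP x.1, ⟨sm true x.1 - 2 * x.2, 2⟩)

theorem el_inj : Function.Injective el := by
  rintro ⟨v, i⟩ ⟨w, j⟩ h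
  obtain ⟨h1, h2⟩ := Prod.ext_iff.mp h
  obtain rfl : v = w := PP_inj h1
  have := congrArg Kb.k h2
  simp only [el] at this
  congr 1; omega

theorem el_eq (u v w : List Bool) :
    AA u * rr true * AA v * rr true * AA w = el (u ++ v ++ w, sm true v) := by
  have h2 : sg 2 = 1 := by simpa using sg_add 1 1
  simp only [AA_eq, rr, el, if_true]
  refine Prod.ext (by simp [PP_app, mul_assoc]) ?_
  ext
  · simp [h2]; ring
  · simp

theorem ps_AA (w : List Bool) : ps (AA w) = 3 * w.length := by
  induction w with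
  | nil => exact ps_one
  | cons x w ih => rw [AA_cons, ps_mul, ih, ps_al]; simp; ring

theorem ps_le (g : GG) : ps g ≤ 3 * wlen S2 g := by
  obtain ⟨l, hl, rfl, e⟩ := ex_word S2 S2_top g
  rw [← e]; exact (defect l hl).1

theorem mem_img (n N : ℕ) (h : n ≤ N) (g : GG) : g ∈ (Pn n N).image el ↔
    wlen S2 g = n + 2 ∧ 3 * ((n + 2 : ℕ) : ℤ) - ps g = 2 := by
  simp only [Finset.mem_image, mem_Pn n N h]
  constructor
  · rintro ⟨⟨w, j⟩, ⟨h1, a, p, q, e, h2⟩, rfl⟩
    simp only at h1 e h2
    subst e h2
    simp only [List.length_append] at h1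
    rw [← el_eq]
    have h3 : ps (AA a * rr true * AA p * rr true * AA q) = 3 * n + 4 := by
      simp only [ps_mul, ps_AA, ps_rr]; omega
    have h4 := ps_le (AA a * rr true * AA p * rr true * AA q)
    have h5 := wlen_le S2 (a.map al ++ [rr true] ++ p.map al ++ [rr true] ++ q.map al) (by
      intro x hx
      simp only [List.mem_append, List.mem_map, List.mem_singleton] at hx
      left
      have : ∀ y, al y ∈ S2 := fun y => by cases y <;> simp [S2]
      rcases hx with (((⟨y, _, rfl⟩ | rfl) | ⟨y, _, rfl⟩) | rfl) | ⟨y, _, rfl⟩ <;>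
        first | exact this _ | simp [S2])
    simp only [List.prod_append, List.prod_singleton, List.length_append, List.length_map,
      List.length_singleton] at h5
    change wlen S2 (AA a * rr true * AA p * rr true * AA q) ≤ _ at h5
    omega
  · rintro ⟨h1, h2⟩
    obtain ⟨l, hl, rfl, e⟩ := ex_word S2 S2_top g
    obtain ⟨u, v, w, e1, e2⟩ := (defect l hl).2.2.2 (by omega)
    refine ⟨(u ++ v ++ w, sm true v), ⟨by simp; omega, u, v, w, rfl, rfl⟩, ?_⟩
    rw [e1, el_eq]

end Pool.Agent.H.MP_c4ee57_al
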