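import Pool.Agent.H.MP_c4ee57_al.A
import Pool.Agent.H.MP_c4ee57_al.G

set_option autoImplicit false

namespace Pool.Agent.H.MP_c4ee57_al

open scoped PowerSeries Polynomial
open PowerSeries

abbrev KK := FractionRing ℚ[X]

theorem algC (c : KK) : IsAlgebraic ℚ[X][X] (C c : KK⟦X⟧) := by
  have h : IsAlgebraic ℚ[X] c :=
    (IsLocalization.isAlgebraic KK (nonZeroDivisors ℚ[X])).isAlgebraic c
  refine h.ringHom_of_comp_eq (Polynomial.C : ℚ[X] →+* ℚ[X][X]) (C : KK →+* KK⟦X⟧)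
    Polynomial.C_injective (RingHom.ext fun q => ?_)
  simp [PowerSeries.algebraMap_apply']

theorem algX : IsAlgebraic ℚ[X][X] (X : KK⟦X⟧) := by
  have : (X : KK⟦X⟧) = algebraMap ℚ[X][X] KK⟦X⟧ Polynomial.X := by
    simp [PowerSeries.algebraMap_apply']
  rw [this]; exact isAlgebraic_algebraMap _

instance : FaithfulSMul ℚ[X][X] KK⟦X⟧ := by
  rw [faithfulSMul_iff_algebraMap_injective]
  intro a b h
  rw [PowerSeries.algebraMap_apply', PowerSeries.algebraMap_apply'] at h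
  exact Polynomial.coe_injective _
    (PowerSeries.map_injective _ (IsFractionRing.injective ℚ[X] KK) h)

theorem sys_transfer {R : Type} [Ring R] (Φ : R⟦X⟧ →+* KK⟦X⟧) (c0 : KK) (hX : Φ X = X * C c0)
    (hC : ∀ a : R, ∃ c : KK, Φ (C a) = C c) (f : R⟦X⟧) (hf : IsAlgebraicSeries f) :
    IsAlgebraic ℚ[X][X] (Φ f) := by
  obtain ⟨n, A, c, M, hM, hA, rfl⟩ := hf
  have hp : ∀ p : R[X], IsAlgebraic ℚ[X][X] (Φ (p : R⟦X⟧)) := by
    intro p
    induction p using Polynomial.induction_on with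
    | C a => obtain ⟨c, hc⟩ := hC a; rw [Polynomial.coe_C, hc]; exact algC c
    | add p q hp hq => rw [Polynomial.coe_add, map_add]; exact hp.add hq
    | monomial n a h =>
      rw [pow_succ, ← mul_assoc, Polynomial.coe_mul, map_mul, Polynomial.coe_X, hX]
      exact h.mul (algX.mul (algC c0))
  set B := Subring.closure ({x : KK⟦X⟧ | IsAlgebraic ℚ[X][X] x} ∪ Set.range fun i => Φ (A i))
    with hB
  have hpB : ∀ p : R[X], Φ (p : R⟦X⟧) ∈ B := fun p => Subring.subset_closure (Or.inl (hp p))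
  have hAB : ∀ i, Φ (A i) ∈ B := fun i => Subring.subset_closure (Or.inr ⟨i, rfl⟩)
  have hd : ∀ p : R[X], Polynomial.X ∣ p → ∃ b ∈ B, Φ (p : R⟦X⟧) = X * b := by
    rintro _ ⟨p, rfl⟩
    refine ⟨C c0 * Φ p, B.mul_mem (Subring.subset_closure (Or.inl (algC c0))) (hpB p), ?_⟩
    rw [Polynomial.coe_mul, map_mul, Polynomial.coe_X, hX, mul_assoc]
  have hL : ∀ L : List (Fin (n + 1) × R[X]),
      Φ (L.map fun p => A p.1 * (p.2 : R⟦X⟧)).prod ∈ B ∧ ((∃ p ∈ L, Polynomial.X ∣ p.2) →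
        ∃ b ∈ B, Φ (L.map fun p => A p.1 * (p.2 : R⟦X⟧)).prod = X * b) := by
    intro L
    induction L with
    | nil => exact ⟨by simpa using B.one_mem, by simp⟩
    | cons p L ih =>
      simp only [List.map_cons, List.prod_cons, map_mul]
      refine ⟨B.mul_mem (B.mul_mem (hAB _) (hpB _)) ih.1, ?_⟩
      rintro ⟨p', hp', hdv⟩
      rcases List.mem_cons.mp hp' with rfl | hp'
      · obtain ⟨b, hb, e⟩ := hd _ hdv
        exact ⟨_, B.mul_mem (B.mul_mem (hAB p'.1) hb) ih.1, by rw [e]; ring⟩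
      · obtain ⟨b, hb, e⟩ := ih.2 ⟨p', hp', hdv⟩
        exact ⟨_, B.mul_mem (B.mul_mem (hAB p.1) (hpB p.2)) hb, by rw [e]; ring⟩
  have hS : ∀ Ms : List (R[X] × List (Fin (n + 1) × R[X])),
      (∀ m ∈ Ms, Polynomial.X ∣ m.1 ∨ ∃ p ∈ m.2, Polynomial.X ∣ p.2) →
      ∃ b ∈ B, Φ (Ms.map fun m => (m.1 : R⟦X⟧) *
        (m.2.map fun p => A p.1 * (p.2 : R⟦X⟧)).prod).sum = X * b := by
    intro Ms h
    induction Ms with
    | nil => exact ⟨0, B.zero_mem, by simp⟩
    | cons m Ms ih =>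
      obtain ⟨b, hb, e⟩ := ih fun m' hm' => h m' (by simp [hm'])
      simp only [List.map_cons, List.sum_cons, map_add, map_mul, e]
      rcases h m (by simp) with h1 | h1
      · obtain ⟨b', hb', e'⟩ := hd _ h1
        exact ⟨_, B.add_mem (B.mul_mem hb' (hL m.2).1) hb, by rw [e']; ring⟩
      · obtain ⟨b', hb', e'⟩ := (hL m.2).2 h1
        exact ⟨_, B.add_mem (B.mul_mem (hpB m.1) hb') hb, by rw [e']; ring⟩
  refine sysO (fun i => Φ (A i)) X algX ?_ ?_ 0
  · intro b h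
    have := congrArg constantCoeff h
    simp at this
  · intro i
    obtain ⟨b, hb, e⟩ := hS (M i) fun m hm => (hM i m hm).2
    refine ⟨Φ (c i), hp _, b, hb, ?_⟩
    show Φ (A i) = _
    rw [← e, ← map_add, ← hA i]

noncomputable def tau : KK := algebraMap ℚ[X] KK Polynomial.X

theorem tau_ne : tau ≠ 0 := by
  intro h
  exact Polynomial.X_ne_zero (IsFractionRing.injective ℚ[X] KK (h.trans (map_zero _).symm))

noncomputable def chi : GG →* KK where
  toFun g := tau ^ (-ps g)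
  map_one' := by simp [ps_one]
  map_mul' g h := by rw [ps_mul, neg_add, zpow_add₀ tau_ne]

theorem S2_not_alg : ¬ IsAlgebraicSeries (CG S2) := by
  classical
  intro h
  let Φ0 : MonoidAlgebra ℤ GG →+* KK := (MonoidAlgebra.lift ℤ KK GG chi).toRingHom
  let Φ : (MonoidAlgebra ℤ GG)⟦X⟧ →+* KK⟦X⟧ := (rescale (tau ^ 3)).comp (PowerSeries.map Φ0)
  have h1 := sys_transfer Φ (tau ^ 3) (by simp [Φ, rescale_X, mul_comm]) (fun a => ⟨Φ0 a, by
    ext n
    simp only [Φ, RingHom.comp_apply, map_C, coeff_rescale, coeff_C]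
    split_ifs with hn <;> simp [hn]⟩) _ h
  let Sp : ℕ → Finset GG := fun n => (sphere_fin S2 S2_top n).toFinset
  have hSp : ∀ n g, g ∈ Sp n ↔ wlen S2 g = n := fun n g => by simp [Sp]
  let F0 : (ℚ[X])⟦X⟧ := PowerSeries.mk fun n =>
    ∑ g ∈ Sp n, Polynomial.X ^ (3 * (n : ℤ) - ps g).toNat
  have e1 : Φ (CG S2) = PowerSeries.map (algebraMap ℚ[X] KK) F0 := by
    refine PowerSeries.ext fun n => ?_
    simp only [Φ, RingHom.comp_apply, coeff_rescale, coeff_map, CG, coeff_mk, F0]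
    rw [finsum_mem_eq_finite_toFinset_sum _ (sphere_fin S2 S2_top n), map_sum, map_sum,
      Finset.mul_sum]
    refine Finset.sum_congr rfl fun g hg => ?_
    have h2 := ps_le g
    rw [(hSp n g).mp hg] at h2
    have : Φ0 (MonoidAlgebra.single g 1) = tau ^ (-ps g) := by simp [Φ0, chi]
    rw [this, map_pow]
    change _ = tau ^ _
    rw [← zpow_natCast, ← zpow_natCast, ← zpow_natCast, ← zpow_mul, ← zpow_add₀ tau_ne]
    congr 1
    omega
  rw [e1] at h1
  have h2 : IsAlgebraic ℚ[X][X] F0 :=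
    IsAlgebraic.of_ringHom_of_comp_eq (RingHom.id ℚ[X][X]) (PowerSeries.map (algebraMap ℚ[X] KK))
      h1 Function.surjective_id (PowerSeries.map_injective _ (IsFractionRing.injective ℚ[X] KK))
      (RingHom.ext fun q => by simp [PowerSeries.algebraMap_apply'])
  have h3 := co_alg 2 F0 h2
  set T := co 2 F0 with hT
  let U : ℚ⟦X⟧ := PowerSeries.mk fun i => coeff (i + 2) T
  have h4 : IsAlgebraic ℚ[X] U := by
    have e := eq_X_pow_mul_shift_add_trunc 2 T
    have h5 : IsAlgebraic ℚ[X] ((Polynomial.X ^ 2 : ℚ[X]) • U) := by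
      have : (Polynomial.X ^ 2 : ℚ[X]) • U = T - algebraMap ℚ[X] ℚ⟦X⟧ (T.trunc 2) := by
        rw [Algebra.smul_def, alg_eq, alg_eq, eq_sub_iff_add_eq]
        push_cast
        exact e.symm
      rw [this]
      exact h3.sub (isAlgebraic_algebraMap _)
    exact h5.of_smul (mem_nonZeroDivisors_of_ne_zero (by simp))
  refine U_not_alg U (fun n N hn => ?_) h4
  rw [← card_Pn, ← Finset.card_image_of_injective _ el_inj]
  simp only [U, hT, co, coeff_mk, F0, Polynomial.finsetSum_coeff, Polynomial.coeff_X_pow]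
  rw [Finset.sum_boole]
  congr 2
  ext g
  rw [mem_img n N hn, Finset.mem_filter, hSp]
  constructor
  · rintro ⟨a, b⟩; exact ⟨a, by omega⟩
  · rintro ⟨a, b⟩; exact ⟨a, by omega⟩

end Pool.Agent.H.MP_c4ee57_al
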